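import Pool.Agent.L5helper1.AS.Blk

set_option autoImplicit false
set_option linter.unusedSectionVars false
set_option maxHeartbeats 4000000

/-! # The covering theorem with an exceptional set in the first block -/

namespace Pool.Agent.L5helper1.AS

open Finset Filter Pool.Agent.H256R2.SC Pool.Agent.Y831.RC

open scoped Classical

theorem cover5E (E : Finset ℕ) (w y z K Q δ η s CB G₂ v₀ m τ Λ R₂ ρ₁ : ℝ) (J m₀ r : ℕ) (hJ : Even J)
    (hm₀ : m₀ ≤ J)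
    (hw2 : 2 ≤ w) (hwy : w ≤ y) (hyz : y ≤ z)
    (hy9 : 9 ≤ y) (hz1 : 1 < z) (hQ : 1 ≤ Q) (hη0 : 0 < η) (hη1 : η ≤ 1) (hs : 1 ≤ s)
    (hG₂ : ∑ i, 1 / ((emb (PS y z ∅) i : ℕ) : ℝ) ≤ G₂)
    (hH : ∃ h, HypS (fun i => ((emb (PS y z ∅) i : ℕ) : ℝ))
      (fun i => 1 / ((emb (PS y z ∅) i : ℕ) : ℝ)) h z K v₀ ∧ ∀ s, h s ≠ 0 → s.card ≤ m₀)
    (hδ : 2 * (Real.log Q / Real.log y) / y ≤ δ)
    (κ : Type) [Fintype κ] [DecidableEq κ] (u : ℝ) (hu : (Fintype.card κ : ℝ) = u)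
    (hτ0 : 0 ≤ τ) (hτ1 : τ ≤ 1) (hΛ : 1 ≤ Λ)
    (hρ : rho (fun i => 1 / ((emb (PS w y E) i : ℕ) : ℝ)) 1 ≤ ρ₁) (hK0 : 0 ≤ K)
    (hR : ∃ R : κ → Col (PS w y E).card κ → ℝ,
      BHyp (fun i => 1 / ((emb (PS w y E) i : ℕ) : ℝ)) R m τ ∧ ∀ k, Lw Λ (R k))
    (hr : Real.log Q / v₀ ≤ r) (hrm : (r:ℝ) + 1 ≤ m) (hR₂ : 1 ≤ R₂)
    (huw : 2 * u ≤ w) (huy : u ≤ y) (huδ : u * δ ≤ 1 / 4) (hv₀ : 0 < v₀)
    (hCB : Q ^ s * Real.exp (2 * u * (y ^ (1 - s) * G₂)) ≤ CB)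
    (hE8 : Real.exp (η * ((1 + η) * u * (ρ₁ * K) / Real.log z -
      Real.log (Q / z) / Real.log z)) ≤ 1 / 8)
    (htail : 4 * (u * ρ₁) * (τ + (δ ^ 2 +
      Real.exp (η * ((1 + η) * u * (ρ₁ * K) / Real.log z -
      Real.log (Q / z) / Real.log z)))) ≤ 1 / 12)
    (hmom : 2 * (u * ρ₁) * ((1 / 3) ^ J * Real.exp (20 * G₂)) ≤ 1 / 12)
    (hpen : 2 * (u * ρ₁) * Real.exp (20 * G₂) ≤ R₂ / 12)
    (res : ℕ → κ → ℤ)
    (hres₁ : ∀ p : ℕ, p.Prime → w < p → (p : ℝ) ≤ y → p ∉ E → ∀ k l, k ≠ l →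
      ¬ ((p : ℤ) ∣ res p k - res p l))
    (hres₂ : ∀ p : ℕ, p.Prime → y < p → (p : ℝ) ≤ z → ∀ k l, k ≠ l →
      ¬ ((p : ℤ) ∣ res p k - res p l))
    (A B : ℤ) (hAB : (Λ ^ r * CB) ^ 2 * (1 + u * (Λ * (z ^ J + 1))) < ((B : ℝ) - A) / 8) :
    3 / 8 * ((B : ℝ) - A) ≤ (((Ioc A B).filter (fun x : ℤ => ∀ k : κ, ∃ p : ℕ, p.Prime ∧ w < p ∧
      (p : ℝ) ≤ z ∧ (p : ℤ) ∣ x - res p k)).card : ℝ) *
      (3 * (1 + 3 * Real.exp G₂ * ((J : ℝ) + 2) ^ (2 * J) * (R₂ + 1)) ^ r) ^ 2 := by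
  obtain ⟨h, H, hcard⟩ := hH
  have hzpos : 0 < z := zero_lt_one.trans hz1
  have hu0 : 0 ≤ u := by rw [← hu]; positivity
  have hy0 : 0 < y := by linarith
  have hw0 : 0 < w := by linarith
  have hlogy : 0 < Real.log y := Real.log_pos (by linarith)
  set PP₁ : Finset ℕ := PS w y E with hPP₁
  set PP₂ : Finset ℕ := PS y z ∅ with hPP₂
  obtain ⟨R, HR, hRL⟩ := hR
  have hm₁ : ∀ p ∈ PP₁, p.Prime ∧ w < (p:ℝ) ∧ (p:ℝ) ≤ y := fun p hp => PS_mem hy0.le (PS_sub w y E hp)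
  have hm₂ : ∀ p ∈ PP₂, p.Prime ∧ y < (p:ℝ) ∧ (p:ℝ) ≤ z := fun p hp => PS_mem hzpos.le hp
  have hd : Disjoint PP₁ PP₂ := by
    rw [Finset.disjoint_left]
    intro p hp hp'
    have h1 := (hm₁ p hp).2.2
    have h2 := (hm₂ p hp').2.1
    linarith
  have hinj₁ : ∀ p ∈ PP₁, ∀ k l : κ, k ≠ l → ¬ ((p : ℤ) ∣ res p k - res p l) := by
    intro p hp
    obtain ⟨h1, h2, h4, h5⟩ := PSE_mem hy0.le hp
    exact hres₁ p h1 h2 h4 h5
  have hinj₂ : ∀ p ∈ PP₂, ∀ k l : κ, k ≠ l → ¬ ((p : ℤ) ∣ res p k - res p l) := by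
    intro p hp
    obtain ⟨h1, h2, h4⟩ := hm₂ p hp
    exact hres₂ p h1 h2 h4
  have hPw : ∀ i, w < ((emb PP₁ i : ℕ) : ℝ) := fun i => (hm₁ _ (emb_mem PP₁ i)).2.1
  have hP₁0 : ∀ i, 0 < ((emb PP₁ i : ℕ) : ℝ) := fun i => hw0.trans (hPw i)
  have hPy : ∀ i, y < ((emb PP₂ i : ℕ) : ℝ) := fun i => (hm₂ _ (emb_mem PP₂ i)).2.1
  have hP0 : ∀ i, 0 < ((emb PP₂ i : ℕ) : ℝ) := fun i => hy0.trans (hPy i)
  have hgy : ∀ i, 1 / ((emb PP₂ i : ℕ) : ℝ) ≤ 1 / y := fun i =>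
    one_div_le_one_div_of_le hy0 (hPy i).le
  have h9 : (1:ℝ) / y ≤ 1 / 9 := one_div_le_one_div_of_le (by norm_num) hy9
  have hG0 : 0 ≤ ∑ i, 1 / ((emb PP₂ i : ℕ) : ℝ) := Finset.sum_nonneg fun i _ => by positivity
  have hG₂0 : 0 ≤ G₂ := hG0.trans hG₂
  -- sizes of supports
  have hsupp : ∀ D : Col PP₂.card κ, qq (fun i => ((emb PP₂ i : ℕ) : ℝ)) D ≤ Q →
      2 * ∑ i with D i ≠ none, 1 / ((emb PP₂ i : ℕ) : ℝ) ≤ δ := by
    intro D hD
    have h1 : Real.exp (((Pool.Agent.H256R2.SC.supp D).card : ℝ) * Real.log y) ≤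
        qq (fun i => ((emb PP₂ i : ℕ) : ℝ)) D := by
      unfold qq
      rw [prod_nu1]
      have : Real.exp (((Pool.Agent.H256R2.SC.supp D).card : ℝ) * Real.log y) =
          ∏ i ∈ Pool.Agent.H256R2.SC.supp D, Real.exp (Real.log y) := by
        rw [Finset.prod_const, ← Real.exp_nat_mul]
      rw [this]
      apply Finset.prod_le_prod
      · intro i _; exact (Real.exp_pos _).le
      · intro i _
        rw [Real.exp_log hy0]
        exact (hPy i).le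
    have h2 := h1.trans hD
    have h3 : ((Pool.Agent.H256R2.SC.supp D).card : ℝ) * Real.log y ≤ Real.log Q := by
      rw [Real.le_log_iff_exp_le (by linarith)]
      exact h2
    have h4 : ((Pool.Agent.H256R2.SC.supp D).card : ℝ) ≤ Real.log Q / Real.log y := by
      rw [le_div_iff₀ hlogy]
      exact h3
    have h5 : ∑ i with D i ≠ none, 1 / ((emb PP₂ i : ℕ) : ℝ) ≤
        (Pool.Agent.H256R2.SC.supp D).card * (1 / y) := by
      have : ∑ i ∈ Pool.Agent.H256R2.SC.supp D, 1 / ((emb PP₂ i : ℕ) : ℝ) ≤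
          ∑ i ∈ Pool.Agent.H256R2.SC.supp D, (1 / y) :=
        Finset.sum_le_sum (fun i _ => hgy i)
      rw [Finset.sum_const, nsmul_eq_mul] at this
      exact this
    refine le_trans ?_ hδ
    calc 2 * ∑ i with D i ≠ none, 1 / ((emb PP₂ i : ℕ) : ℝ) ≤
          2 * ((Pool.Agent.H256R2.SC.supp D).card * (1 / y)) :=
          mul_le_mul_of_nonneg_left h5 (by norm_num)
      _ ≤ 2 * (Real.log Q / Real.log y * (1 / y)) := by
          apply mul_le_mul_of_nonneg_left _ (by norm_num)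
          exact mul_le_mul_of_nonneg_right h4 (by positivity)
      _ = 2 * (Real.log Q / Real.log y) / y := by ring
  -- the count
  have hz0 : (1:ℝ) ≤ z ^ J := one_le_pow₀ hz1.le
  have hNpos : 0 < (B:ℝ) - A := by
    have : 0 ≤ (Λ ^ r * CB) ^ 2 * (1 + u * (Λ * (z ^ J + 1))) := by positivity
    linarith
  have hABle : A ≤ B := by
    have h2 : (A:ℝ) ≤ B := by linarith
    exact_mod_cast h2
  have hevent : ∀ D : Col (PP₁.card + PP₂.card) κ,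
      |((((Ioc A B).filter (fun a => ∀ i, D i ≠ none →
        (Fin.append (colr PP₁ res a) (colr PP₂ res a) : Col (PP₁.card + PP₂.card) κ) i =
          D i)).card : ℕ) : ℝ) -
        ((B:ℝ) - A) * nu (Fin.append (fun i => 1 / ((emb PP₁ i : ℕ) : ℝ))
          (fun i => 1 / ((emb PP₂ i : ℕ) : ℝ))) D| ≤ 1 := by
    intro D
    obtain ⟨r, hr⟩ := event_two (fun p hp => (hm₁ p hp).1) (fun p hp => (hm₂ p hp).1) hd
      hinj₁ hinj₂ D
    have h1 : ((Ioc A B).filter (fun a => ∀ i, D i ≠ none →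
        (Fin.append (colr PP₁ res a) (colr PP₂ res a) : Col (PP₁.card + PP₂.card) κ) i = D i)) =
        (Ioc A B).filter (fun a => ((qn PP₁ (fstc D) * qn PP₂ (sndc D) : ℕ) : ℤ) ∣ a - r) := by
      apply Finset.filter_congr
      intro a _
      exact hr a
    have hq : 0 < qn PP₁ (fstc D) * qn PP₂ (sndc D) :=
      Nat.mul_pos (Nat.pos_of_ne_zero (qn_squarefree (fun p hp => (hm₁ p hp).1) _).ne_zero)
        (Nat.pos_of_ne_zero (qn_squarefree (fun p hp => (hm₂ p hp).1) _).ne_zero)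
    rw [h1, nu_append, nu_eq PP₁ (fstc D), nu_eq PP₂ (sndc D)]
    have h2 := LG.count_Ioc A B hABle _ hq r
    have h3 : ((B:ℝ) - A) * (1 / ((qn PP₁ (fstc D) : ℕ) : ℝ) * (1 / ((qn PP₂ (sndc D) : ℕ) : ℝ))) =
        ((B:ℝ) - A) / ((qn PP₁ (fstc D) * qn PP₂ (sndc D) : ℕ) : ℝ) := by
      push_cast
      rw [one_div_mul_one_div, mul_one_div]
    rw [h3]
    exact h2
  have hn2 : (PP₂.card:ℝ) + 1 ≤ z := card_PS y z hz1.le
  have c1 : ∀ i, 1 / ((emb PP₂ i : ℕ) : ℝ) ≤ 1 := fun i => (hgy i).trans (by linarith)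
  have c2 : ∀ i, 3 * 3 * (1 / ((emb PP₂ i : ℕ) : ℝ)) ≤ 1 := fun i => by
    have := hgy i
    linarith
  have c3 : ∀ i, (Fintype.card κ : ℝ) * (1 / ((emb PP₂ i : ℕ) : ℝ)) ≤ 1 := fun i => by
    rw [hu, mul_one_div, div_le_one (hP0 i)]
    exact huy.trans (hPy i).le
  have c3' : ∀ i, (Fintype.card κ : ℝ) * (1 / ((emb PP₁ i : ℕ) : ℝ)) ≤ 1 / 2 := fun i => by
    rw [hu, mul_one_div, div_le_div_iff₀ (hP₁0 i) (by norm_num)]
    have := (hPw i).le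
    linarith
  have c4 : Q ^ s * Real.exp (2 * (Fintype.card κ : ℝ) * ∑ i, 1 / ((emb PP₂ i : ℕ) : ℝ) ^ s) ≤ CB := by
    refine le_trans ?_ hCB
    apply mul_le_mul_of_nonneg_left _ (Real.rpow_nonneg (by linarith) _)
    apply Real.exp_le_exp.2
    rw [hu]
    apply mul_le_mul_of_nonneg_left _ (by positivity)
    calc ∑ i, 1 / ((emb PP₂ i : ℕ) : ℝ) ^ s ≤ ∑ i, y ^ (1 - s) * (1 / ((emb PP₂ i : ℕ) : ℝ)) := by
          apply Finset.sum_le_sum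
          intro i _
          have e1 : 1 / ((emb PP₂ i : ℕ) : ℝ) ^ s = ((emb PP₂ i : ℕ) : ℝ) ^ (1 - s) *
              (1 / ((emb PP₂ i : ℕ) : ℝ)) := by
            rw [Real.rpow_sub (hP0 i), Real.rpow_one]
            have := (hP0 i).ne'
            field_simp
          rw [e1]
          apply mul_le_mul_of_nonneg_right _ (by positivity)
          exact Real.rpow_le_rpow_of_nonpos hy0 (hPy i).le (by linarith)
      _ = y ^ (1 - s) * ∑ i, 1 / ((emb PP₂ i : ℕ) : ℝ) := by rw [Finset.mul_sum]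
      _ ≤ y ^ (1 - s) * G₂ := mul_le_mul_of_nonneg_left hG₂ (Real.rpow_nonneg hy0.le _)
  have c9 : 0 ≤ rho (fun i => 1 / ((emb PP₁ i : ℕ) : ℝ)) 1 := by
    unfold rho
    apply Finset.prod_nonneg
    intro i _
    have h1 := hPw i
    have h2 : 1 / ((emb PP₁ i : ℕ) : ℝ) ≤ 1 / 2 := one_div_le_one_div_of_le (by norm_num) (by linarith)
    push_cast
    linarith
  have hρ₁0 : 0 ≤ ρ₁ := c9.trans hρ
  have hρ0 : 0 ≤ u * ρ₁ := by positivity
  have huρ : u * rho (fun i => 1 / ((emb PP₁ i : ℕ) : ℝ)) 1 ≤ u * ρ₁ :=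
    mul_le_mul_of_nonneg_left hρ hu0
  have hG20 : Real.exp (20 * ∑ i, 1 / ((emb PP₂ i : ℕ) : ℝ)) ≤ Real.exp (20 * G₂) := by
    apply Real.exp_le_exp.2
    linarith
  have c5 : 2 * ((Fintype.card κ : ℝ) * rho (fun i => 1 / ((emb PP₁ i : ℕ) : ℝ)) 1) *
      ((1 / 3) ^ J * Real.exp (20 * ∑ i, 1 / ((emb PP₂ i : ℕ) : ℝ))) ≤ 1 / 12 := by
    refine le_trans ?_ hmom
    rw [hu]
    apply mul_le_mul (by linarith) _ (by positivity) (by positivity)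
    exact mul_le_mul_of_nonneg_left hG20 (by positivity)
  have c5' : 2 * ((Fintype.card κ : ℝ) * rho (fun i => 1 / ((emb PP₁ i : ℕ) : ℝ)) 1) *
      Real.exp (20 * ∑ i, 1 / ((emb PP₂ i : ℕ) : ℝ)) ≤ R₂ / 12 := by
    refine le_trans ?_ hpen
    rw [hu]
    exact mul_le_mul (by linarith) hG20 (by positivity) (by positivity)
  have hlogQ : 0 ≤ Real.log Q := Real.log_nonneg hQ
  have hn0 : (0:ℝ) ≤ (PP₂.card:ℝ) + 1 := by positivity
  have hCB0 : 0 ≤ CB := le_trans (by positivity) c4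
  have c6 : (1:ℝ) * ((Λ ^ r * CB) ^ 2 *
      (1 + Fintype.card κ * (Λ * (((PP₂.card:ℝ) + 1) ^ J + 1)))) < ((B:ℝ) - A) / 8 := by
    refine lt_of_le_of_lt ?_ hAB
    rw [hu, one_mul]
    have e3 := pow_le_pow_left₀ hn0 hn2 J
    have e4 : Λ * (((PP₂.card:ℝ) + 1) ^ J + 1) ≤ Λ * (z ^ J + 1) :=
      mul_le_mul_of_nonneg_left (by linarith) (by linarith)
    have e5 := mul_le_mul_of_nonneg_left e4 hu0
    apply mul_le_mul_of_nonneg_left (by linarith) (by positivity)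
  have hlogz : 0 < Real.log z := Real.log_pos hz1
  have hexp : Real.exp (η * ((1 + η) * (Fintype.card κ : ℝ) *
      (rho (fun i => 1 / ((emb PP₁ i : ℕ) : ℝ)) 1 * K) / Real.log z -
        Real.log (Q / z) / Real.log z)) ≤
      Real.exp (η * ((1 + η) * u * (ρ₁ * K) / Real.log z - Real.log (Q / z) / Real.log z)) := by
    rw [hu]
    apply Real.exp_le_exp.2
    apply mul_le_mul_of_nonneg_left _ hη0.le
    apply sub_le_sub_right
    apply div_le_div_of_nonneg_right _ hlogz.le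
    have e1 : rho (fun i => 1 / ((emb PP₁ i : ℕ) : ℝ)) 1 * K ≤ ρ₁ * K :=
      mul_le_mul_of_nonneg_right hρ hK0
    exact mul_le_mul_of_nonneg_left e1 (by positivity)
  have c7 : 4 * ((Fintype.card κ : ℝ) * rho (fun i => 1 / ((emb PP₁ i : ℕ) : ℝ)) 1) * (τ + (δ ^ 2 +
      Real.exp (η * ((1 + η) * (Fintype.card κ : ℝ) *
      (rho (fun i => 1 / ((emb PP₁ i : ℕ) : ℝ)) 1 * K) / Real.log z -
        Real.log (Q / z) / Real.log z)))) ≤ 1 / 12 := by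
    refine le_trans ?_ htail
    have e1 : 0 ≤ (Fintype.card κ : ℝ) * rho (fun i => 1 / ((emb PP₁ i : ℕ) : ℝ)) 1 :=
      mul_nonneg (Nat.cast_nonneg _) c9
    apply mul_le_mul _ (by linarith) (by positivity) (by positivity)
    rw [hu]
    linarith
  have c7' : Real.exp (η * ((1 + η) * (Fintype.card κ : ℝ) *
      (rho (fun i => 1 / ((emb PP₁ i : ℕ) : ℝ)) 1 * K) / Real.log z -
        Real.log (Q / z) / Real.log z)) ≤ 1 / 8 := hexp.trans hE8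
  have c8 : (Fintype.card κ : ℝ) * δ ≤ 1 / 4 := by rw [hu]; exact huδ
  have hmain := core5 (κ := κ) (Ioc A B)
    (fun a => (Fin.append (colr PP₁ res a) (colr PP₂ res a) : Col (PP₁.card + PP₂.card) κ))
    H (fun i => 1 / ((emb PP₁ i : ℕ) : ℝ)) R m τ HR hτ0 hτ1 Λ hΛ hRL Q δ ((B:ℝ) - A) 1 η s CB R₂
    J m₀ r hJ hm₀ hNpos zero_le_one
    hQ hη0 hη1 (by linarith) (fun i => by have := hP₁0 i; positivity) c3' c9 c1 c2 c3 hsupp c8
    hr hrm hR₂ hcard c4 c7' c7 c5 c5' hevent c6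
  refine hmain.trans ?_
  have hA1 : (((Ioc A B).filter (fun a => ∀ k, ∃ i,
      (Fin.append (colr PP₁ res a) (colr PP₂ res a) : Col (PP₁.card + PP₂.card) κ) i =
        some k)).card : ℝ) ≤
      (((Ioc A B).filter (fun x : ℤ => ∀ k : κ, ∃ p : ℕ, p.Prime ∧ w < p ∧
      (p : ℝ) ≤ z ∧ (p : ℤ) ∣ x - res p k)).card : ℝ) := by
    have : ((Ioc A B).filter (fun a => ∀ k, ∃ i,
      (Fin.append (colr PP₁ res a) (colr PP₂ res a) : Col (PP₁.card + PP₂.card) κ) i =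
        some k)).card ≤
      ((Ioc A B).filter (fun x : ℤ => ∀ k : κ, ∃ p : ℕ, p.Prime ∧ w < p ∧
      (p : ℝ) ≤ z ∧ (p : ℤ) ∣ x - res p k)).card := by
      apply Finset.card_le_card
      intro a ha
      rw [Finset.mem_filter] at ha ⊢
      refine ⟨ha.1, fun k => ?_⟩
      obtain ⟨i, hi⟩ := ha.2 k
      revert hi
      refine Fin.addCases (fun j hj => ?_) (fun j hj => ?_) i
      · rw [Fin.append_left] at hj
        have h1 := (colr_eq hinj₁ a j k).mp hj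
        have h2 := hm₁ _ (emb_mem PP₁ j)
        exact ⟨emb PP₁ j, h2.1, h2.2.1, h2.2.2.trans hyz, h1⟩
      · rw [Fin.append_right] at hj
        have h1 := (colr_eq hinj₂ a j k).mp hj
        have h2 := hm₂ _ (emb_mem PP₂ j)
        exact ⟨emb PP₂ j, h2.1, lt_of_le_of_lt hwy h2.2.1, h2.2.2, h1⟩
    exact_mod_cast this
  apply mul_le_mul hA1 _ (by positivity) (Nat.cast_nonneg _)
  have hR20 : 0 ≤ R₂ + 1 := by linarith
  apply pow_le_pow_left₀ (by positivity)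
  apply mul_le_mul_of_nonneg_left _ (by norm_num)
  apply pow_le_pow_left₀ (by positivity)
  have h5 : Real.exp (∑ i, 1 / ((emb PP₂ i : ℕ) : ℝ)) ≤ Real.exp G₂ := Real.exp_le_exp.2 hG₂
  have h6 : 0 ≤ ((J : ℝ) + 2) ^ (2 * J) * (R₂ + 1) := by positivity
  have h7 := mul_le_mul_of_nonneg_right h5 h6
  linarith

end Pool.Agent.L5helper1.AS
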