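import Pool.Agent.L5helper1.AS.Fake

set_option autoImplicit false
set_option linter.unusedSectionVars false
set_option linter.unusedVariables false
set_option maxHeartbeats 4000000

/-! # Averaging over the classes modulo the small primes, arbitrary sets of shifts -/

namespace Pool.Agent.L5helper1.AS

open Finset Filter Pool.Agent.H256R2.SC Pool.Agent.Y831.RC

open scoped Classical

/-- the shifts which are not covered by the primes dividing `P` in the class `b` -/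
noncomputable def SB (B : Finset ℤ) (P b : ℕ) : Finset ℤ :=
  B.filter (fun β => IsCoprime ((b : ℤ) + β) (P : ℤ))

theorem cop_iff (P : ℕ) (hP : 0 < P) (β : ℤ) (b : ℕ) :
    IsCoprime ((b : ℤ) + β) (P : ℤ) ↔ P.Coprime (b + (β % (P:ℤ)).toNat) := by
  have hP' : (0:ℤ) < P := by exact_mod_cast hP
  have h1 : 0 ≤ β % (P:ℤ) := Int.emod_nonneg β hP'.ne'
  have h2 : ((β % (P:ℤ)).toNat : ℤ) = β % (P:ℤ) := Int.toNat_of_nonneg h1
  have h3 : (b : ℤ) + β = ((b + (β % (P:ℤ)).toNat : ℕ) : ℤ) + (β / (P:ℤ)) * (P:ℤ) := by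
    push_cast
    rw [h2]
    have := Int.emod_add_mul_ediv β (P:ℤ)
    linarith
  rw [h3, IsCoprime.add_mul_right_left_iff, Nat.isCoprime_iff_coprime, Nat.coprime_comm]

theorem class_sumB (P : ℕ) (hP : 0 < P) (B : Finset ℤ) :
    ∑ b ∈ range P, (SB B P b).card = B.card * P.totient := by
  have h1 : ∀ b, (SB B P b).card =
      ∑ β ∈ B, if P.Coprime (b + (β % (P:ℤ)).toNat) then 1 else 0 := by
    intro b
    unfold SB
    rw [Finset.card_filter]
    apply Finset.sum_congr rfl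
    intro β _
    simp only [cop_iff P hP β b]
  rw [Finset.sum_congr rfl fun b _ => h1 b, Finset.sum_comm]
  have h2 : ∀ β ∈ B, ∑ b ∈ range P,
      (if P.Coprime (b + (β % (P:ℤ)).toNat) then 1 else 0) = P.totient := by
    intro β _
    set k : ℕ := (β % (P:ℤ)).toNat with hk
    rw [← Nat.filter_coprime_Ico_eq_totient P k, ← Finset.card_filter]
    apply Finset.card_bij (fun b _ => b + k)
    · intro b hb
      rw [Finset.mem_filter, Finset.mem_range] at hb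
      rw [Finset.mem_filter, Finset.mem_Ico]
      exact ⟨⟨by omega, by omega⟩, hb.2⟩
    · intro b _ b' _ h
      omega
    · intro n hn
      rw [Finset.mem_filter, Finset.mem_Ico] at hn
      refine ⟨n - k, ?_, by omega⟩
      rw [Finset.mem_filter, Finset.mem_range]
      refine ⟨by omega, ?_⟩
      have : n - k + k = n := by omega
      rw [this]
      exact hn.2
  rw [Finset.sum_congr rfl h2, Finset.sum_const, smul_eq_mul]

/-- the integers `n` in `(M, M + X]` such that all the shifts have a prime factor at most `y` -/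
def GS (M X : ℝ) (B : Finset ℤ) (y : ℝ) : Set ℤ :=
  {n : ℤ | M < (n:ℝ) ∧ (n:ℝ) ≤ M + X ∧ ∀ β ∈ B, ∃ p : ℕ, p.Prime ∧ (p:ℝ) ≤ y ∧ (p:ℤ) ∣ n + β}

theorem GS_finite (M X : ℝ) (B : Finset ℤ) (y : ℝ) : (GS M X B y).Finite := by
  apply (Set.finite_Icc ⌊M⌋ ⌈M + X⌉).subset
  intro n hn
  obtain ⟨h1, h2, _⟩ := hn
  constructor
  · have h3 := Int.floor_le M
    have h4 : ((⌊M⌋ : ℤ) : ℝ) ≤ n := by linarith
    exact_mod_cast h4
  · have h3 := Int.le_ceil (M + X)
    have h4 : (n : ℝ) ≤ ((⌈M + X⌉ : ℤ) : ℝ) := by linarith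
    exact_mod_cast h4

/-- one class -/
theorem class_cntB (B : Finset ℤ) (E : Finset ℕ) (w y₁ y₂ x Φ len X M θ : ℝ) (b : ℕ)
    (hx0 : 0 ≤ x) (hxw : x ≤ w) (hθ : 0 ≤ θ)
    (hy : y₁ ≤ y₂) (hxy : x ≤ y₂) (hΦ : 0 ≤ Φ)
    (hE : ∀ p : ℕ, p.Prime → w < p → (p : ℝ) ≤ y₁ → p ∉ E → ∀ β ∈ B, ∀ β' ∈ B, β ≠ β' →
      ¬ ((p : ℤ) ∣ β - β'))
    (hcov : ∀ res : ℕ → (SB B (primorial ⌊x⌋₊) b) → ℤ,
      (∀ p : ℕ, p.Prime → w < p → (p : ℝ) ≤ y₁ → p ∉ E → ∀ k l, k ≠ l →
        ¬ ((p : ℤ) ∣ res p k - res p l)) →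
      ∀ A' B' : ℤ, len ≤ (B' : ℝ) - A' →
      θ * ((B' : ℝ) - A') ≤ (((Ioc A' B').filter (fun x : ℤ => ∀ k, ∃ p : ℕ, p.Prime ∧
        w < p ∧ (p : ℝ) ≤ y₁ ∧ (p : ℤ) ∣ x - res p k)).card : ℝ) * Φ)
    (hlen : len ≤ X / (primorial ⌊x⌋₊ : ℝ) - 1) :
    θ * (X / (primorial ⌊x⌋₊ : ℝ) - 1) ≤
      ((((GS_finite M X B y₂).toFinset).filter
        (fun n : ℤ => ((primorial ⌊x⌋₊ : ℕ) : ℤ) ∣ n - b)).card : ℝ) * Φ := by
  set P : ℕ := primorial ⌊x⌋₊ with hPdef
  have hPpos : 0 < P := primorial_pos _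
  have hPr : (0 : ℝ) < P := by exact_mod_cast hPpos
  have hfloor : ∀ p : ℕ, p ≤ ⌊x⌋₊ ↔ (p : ℝ) ≤ x := fun p => Nat.le_floor_iff hx0
  have hndvdP : ∀ p : ℕ, p.Prime → w < p → ¬ p ∣ P := by
    intro p hp hpX h
    have := (hfloor p).1 ((hp.dvd_primorial_iff).1 h)
    linarith
  have hinv : ∀ p : ℕ, ∃ i : ℤ, p.Prime → ¬ p ∣ P → (p : ℤ) ∣ P * i - 1 := by
    intro p
    by_cases h : p.Prime ∧ ¬ p ∣ P
    · obtain ⟨i, hi⟩ := LG.inv_exists h.1 h.2
      exact ⟨i, fun _ _ => hi⟩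
    · exact ⟨0, fun h1 h2 => absurd ⟨h1, h2⟩ h⟩
  choose ip hip using hinv
  set A' : ℤ := ⌊(M - b) / P⌋ with hA'
  set B' : ℤ := ⌊(M + X - b) / P⌋ with hB'
  have hBA : X / (P : ℝ) - 1 ≤ (B' : ℝ) - A' := by
    have e1 := Int.floor_le ((M - b) / P)
    have e2 := Int.lt_floor_add_one ((M + X - b) / P)
    have e3 : (M + X - b) / P = (M - b) / P + X / P := by
      field_simp
      ring
    linarith
  have hcount := hcov
    (fun p k => -((b : ℤ) + (k : ℤ)) * ip p) (by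
      intro p hp hp1 hp2 hp3 k l hkl hdvd
      have h1 := hip p hp (hndvdP p hp hp1)
      have h2 : (p : ℤ) ∣ (l : ℤ) - (k : ℤ) := by
        have h3 : (p : ℤ) ∣ (P : ℤ) * (-((b : ℤ) + (k : ℤ)) * ip p -
            -((b : ℤ) + (l : ℤ)) * ip p) := hdvd.mul_left _
        have h4 : (p : ℤ) ∣ ((l : ℤ) - (k : ℤ)) * ((P : ℤ) * ip p - 1) := h1.mul_left _
        have h5 := dvd_sub h3 h4
        have h6 : (P : ℤ) * (-((b : ℤ) + (k : ℤ)) * ip p -
            -((b : ℤ) + (l : ℤ)) * ip p) -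
            ((l : ℤ) - (k : ℤ)) * ((P : ℤ) * ip p - 1) =
            (l : ℤ) - (k : ℤ) := by ring
        rwa [h6] at h5
      have hk := (mem_filter.1 k.2).1
      have hl := (mem_filter.1 l.2).1
      exact hE p hp hp1 hp2 hp3 l hl k hk (fun h => hkl (Subtype.ext h.symm)) h2)
    A' B' (hlen.trans hBA)
  set U : Finset ℤ := SB B P b with hU
  set S : Finset ℤ := (Ioc A' B').filter (fun x : ℤ => ∀ k : U,
      ∃ p : ℕ, p.Prime ∧ w < p ∧ (p : ℝ) ≤ y₁ ∧
        (p : ℤ) ∣ x - -((b : ℤ) + (k : ℤ)) * ip p) with hS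
  have hsub : S.image (fun m : ℤ => (b : ℤ) + P * m) ⊆
      ((GS_finite M X B y₂).toFinset).filter (fun n : ℤ => ((P : ℕ) : ℤ) ∣ n - b) := by
    intro n hn
    rw [Finset.mem_image] at hn
    obtain ⟨m, hm, rfl⟩ := hn
    rw [hS, Finset.mem_filter, Finset.mem_Ioc] at hm
    obtain ⟨⟨hmA, hmB⟩, hm⟩ := hm
    have hm1 : (M - b) / P < m := by
      have := Int.lt_floor_add_one ((M - b) / P)
      have h2 : ((⌊(M - b) / P⌋ : ℤ) : ℝ) + 1 ≤ m := by exact_mod_cast hmA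
      linarith
    have hm2 : (m : ℝ) ≤ (M + X - b) / P := by
      have := Int.floor_le ((M + X - b) / P)
      have h2 : (m : ℝ) ≤ ((⌊(M + X - b) / P⌋ : ℤ) : ℝ) := by exact_mod_cast hmB
      linarith
    rw [div_lt_iff₀ hPr] at hm1
    rw [le_div_iff₀ hPr] at hm2
    rw [Finset.mem_filter, Set.Finite.mem_toFinset]
    refine ⟨⟨?_, ?_, ?_⟩, ?_⟩
    · push_cast
      linarith
    · push_cast
      linarith
    · intro k hkB
      by_cases hkU : k ∈ U
      · obtain ⟨p, hp, hp1, hp2, hp3⟩ := hm ⟨k, hkU⟩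
        refine ⟨p, hp, hp2.trans hy, ?_⟩
        have h1 := hip p hp (hndvdP p hp hp1)
        have h3 := hp3.mul_left (P : ℤ)
        have h4 := h1.mul_left ((b : ℤ) + (k : ℤ))
        have h5 := dvd_sub h3 h4
        have h6 : (P : ℤ) * ((m : ℤ) - -((b : ℤ) + (k : ℤ)) * ip p) -
            ((b : ℤ) + (k : ℤ)) * ((P : ℤ) * ip p - 1) = (b : ℤ) + P * m + k := by
          ring
        rwa [← h6]
      · have hkU' : ¬ P.Coprime (b + (k % (P:ℤ)).toNat) := fun h =>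
          hkU (mem_filter.2 ⟨hkB, (cop_iff P hPpos k b).2 h⟩)
        rw [Nat.Prime.not_coprime_iff_dvd] at hkU'
        obtain ⟨p, hp, hp1, hp2⟩ := hkU'
        have hpx : (p : ℝ) ≤ x := (hfloor p).1 ((hp.dvd_primorial_iff).1 hp1)
        refine ⟨p, hp, hpx.trans hxy, ?_⟩
        have hP' : (0:ℤ) < P := by exact_mod_cast hPpos
        have e1 : ((k % (P:ℤ)).toNat : ℤ) = k % (P:ℤ) :=
          Int.toNat_of_nonneg (Int.emod_nonneg k hP'.ne')
        have hp1' : (p : ℤ) ∣ (P : ℤ) := by exact_mod_cast hp1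
        have h4 : (p : ℤ) ∣ (b : ℤ) + k % (P:ℤ) := by
          have : ((b + (k % (P:ℤ)).toNat : ℕ) : ℤ) = (b : ℤ) + k % (P:ℤ) := by
            push_cast
            rw [e1]
          rw [← this]
          exact_mod_cast hp2
        have h5 : (b : ℤ) + P * m + k = ((b : ℤ) + k % (P:ℤ)) + (P:ℤ) * (m + k / (P:ℤ)) := by
          have := Int.emod_add_mul_ediv k (P:ℤ)
          linarith
        rw [h5]
        exact dvd_add h4 (Dvd.dvd.mul_right hp1' _)
    · refine ⟨m, ?_⟩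
      ring
  have hinj : (S.image (fun m : ℤ => (b : ℤ) + P * m)).card = S.card := by
    apply Finset.card_image_of_injective
    intro m m' h
    have hP0 : (P : ℤ) ≠ 0 := by exact_mod_cast hPpos.ne'
    have h2 : (P : ℤ) * m = P * m' := by
      have : (b : ℤ) + P * m = b + P * m' := h
      linarith
    exact mul_left_cancel₀ hP0 h2
  have hcard : (S.card : ℝ) ≤ ((((GS_finite M X B y₂).toFinset).filter
      (fun n : ℤ => ((P : ℕ) : ℤ) ∣ n - b)).card : ℝ) := by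
    have h1 := Finset.card_le_card hsub
    rw [hinj] at h1
    exact_mod_cast h1
  have h1 : θ * (X / (P : ℝ) - 1) ≤ θ * ((B' : ℝ) - A') := mul_le_mul_of_nonneg_left hBA hθ
  exact h1.trans (hcount.trans (mul_le_mul_of_nonneg_right hcard hΦ))

/-- the exceptional primes of a set of shifts -/
noncomputable def ES (B : Finset ℤ) (w : ℝ) : Finset ℕ :=
  (B ×ˢ B).biUnion (fun q => if q.1 = q.2 then ∅ else
    ((q.1 - q.2).natAbs.primeFactors).filter (fun p : ℕ => w < (p:ℝ)))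

theorem ES_spec (B : Finset ℤ) (w : ℝ) (p : ℕ) (hp : p.Prime) (hw : w < p) (hpE : p ∉ ES B w) :
    ∀ β ∈ B, ∀ β' ∈ B, β ≠ β' → ¬ ((p : ℤ) ∣ β - β') := by
  intro β hβ β' hβ' hne hdvd
  apply hpE
  unfold ES
  rw [Finset.mem_biUnion]
  refine ⟨(β, β'), Finset.mem_product.2 ⟨hβ, hβ'⟩, ?_⟩
  simp only
  rw [if_neg hne, Finset.mem_filter, Nat.mem_primeFactors]
  refine ⟨⟨hp, ?_, ?_⟩, hw⟩
  · exact Int.natCast_dvd.1 hdvd
  · intro h
    rw [Int.natAbs_eq_zero] at h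
    exact hne (by linarith)

/-- the number of prime factors above `w` -/
theorem big_factors (w V : ℝ) (hw : Real.exp 1 ≤ w) (m : ℕ) (hm : m ≠ 0) (hV : (m:ℝ) ≤ Real.exp V) :
    (((m.primeFactors).filter (fun p : ℕ => w < (p:ℝ))).card : ℝ) ≤ V := by
  set S := (m.primeFactors).filter (fun p : ℕ => w < (p:ℝ)) with hS
  have h1 : ∏ p ∈ S, p ≤ m := by
    have h2 : ∏ p ∈ S, p ∣ m := by
      refine dvd_trans ?_ (Nat.prod_primeFactors_dvd m)
      exact Finset.prod_dvd_prod_of_subset _ _ _ (Finset.filter_subset _ _)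
    exact Nat.le_of_dvd (Nat.pos_of_ne_zero hm) h2
  have h2 : (Real.exp 1) ^ S.card ≤ ∏ p ∈ S, (p:ℝ) := by
    rw [← Finset.prod_const]
    apply Finset.prod_le_prod
    · intro p _
      exact (Real.exp_pos 1).le
    · intro p hp
      rw [hS, Finset.mem_filter] at hp
      linarith [hp.2]
  have h3 : ((∏ p ∈ S, p : ℕ) : ℝ) ≤ m := by exact_mod_cast h1
  push_cast at h3
  have h4 : (Real.exp 1) ^ S.card = Real.exp (S.card : ℝ) := by
    rw [← Real.exp_nat_mul, mul_one]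
  rw [h4] at h2
  exact Real.exp_le_exp.1 (h2.trans (h3.trans hV))

theorem ES_card (B : Finset ℤ) (w V : ℝ) (hw : Real.exp 1 ≤ w) (hV : 0 ≤ V)
    (hB : ∀ β ∈ B, |(β:ℝ)| ≤ Real.exp V / 2) : ((ES B w).card : ℝ) ≤ (B.card : ℝ) ^ 2 * V := by
  have h1 : (ES B w).card ≤ ∑ q ∈ B ×ˢ B, (if q.1 = q.2 then ∅ else
    ((q.1 - q.2).natAbs.primeFactors).filter (fun p : ℕ => w < (p:ℝ))).card :=
    Finset.card_biUnion_le
  have h2 : ((ES B w).card : ℝ) ≤ ∑ q ∈ B ×ˢ B, (((if q.1 = q.2 then ∅ else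
    ((q.1 - q.2).natAbs.primeFactors).filter (fun p : ℕ => w < (p:ℝ))).card : ℕ) : ℝ) := by
    exact_mod_cast h1
  refine h2.trans ?_
  calc ∑ q ∈ B ×ˢ B, (((if q.1 = q.2 then ∅ else
      ((q.1 - q.2).natAbs.primeFactors).filter (fun p : ℕ => w < (p:ℝ))).card : ℕ) : ℝ)
      ≤ ∑ _q ∈ B ×ˢ B, V := by
        apply Finset.sum_le_sum
        rintro ⟨β, β'⟩ hq
        rw [Finset.mem_product] at hq
        simp only
        split_ifs with h
        · simpa using hV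
        · apply big_factors w V hw
          · intro h0
            rw [Int.natAbs_eq_zero] at h0
            exact h (by linarith)
          · rw [Nat.cast_natAbs]
            push_cast
            have e1 := hB β hq.1
            have e2 := hB β' hq.2
            calc |(β:ℝ) - β'| ≤ |(β:ℝ)| + |(β':ℝ)| := abs_sub _ _
              _ ≤ Real.exp V := by linarith
    _ = _ := by
        rw [Finset.sum_const, Finset.card_product, nsmul_eq_mul]
        push_cast
        ring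

end Pool.Agent.L5helper1.AS
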