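import Pool.Agent.L5helper1.AS.Main

set_option autoImplicit false
set_option linter.unusedSectionVars false
set_option linter.unusedVariables false
set_option maxHeartbeats 4000000

/-! # Consequences: prescribed long gaps, sums of primes and sparse sets -/

namespace Pool.Agent.L5helper1.AS

open Finset Filter

open scoped Classical

/-- the full range of `T` -/
theorem main₂ (D δ : ℝ) (hD : 0 < D) (hδ : 0 < δ) : ∃ T₀ X₀ : ℝ, ∀ X : ℝ, X₀ ≤ X →
    ∀ T : ℝ, T₀ ≤ T → T ≤ Real.log X →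
    ∀ B : Finset ℤ, (B.card : ℝ) ≤ Real.log X * Real.log T / (300 * (D + 6)) →
    (∀ β ∈ B, |(β : ℝ)| ≤ Real.exp ((Real.log X) ^ D)) → ∀ M : ℝ,
    X * Real.exp (-(min T ((Real.log X) ^ ((1:ℝ) / 3)))) ≤ ((GS M X B (X ^ δ)).ncard : ℝ) := by
  obtain ⟨T₀, X₁, h⟩ := main₁ D δ hD hδ
  refine ⟨max T₀ 1, max X₁ (Real.exp (max 1 ((max T₀ 1) ^ 3))), ?_⟩
  intro X hX T hT hTL B hBc hBs M
  have hX1 : X₁ ≤ X := (le_max_left _ _).trans hX
  have hX2 : Real.exp (max 1 ((max T₀ 1) ^ 3)) ≤ X := (le_max_right _ _).trans hX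
  have hX0 : 0 < X := (Real.exp_pos _).trans_le hX2
  have hL : max 1 ((max T₀ 1) ^ 3) ≤ Real.log X := by
    rw [Real.le_log_iff_exp_le hX0]
    exact hX2
  set L := Real.log X with hLdef
  have hL1 : 1 ≤ L := (le_max_left _ _).trans hL
  have hL0 : 0 < L := by linarith
  have hT1 : 1 ≤ T := (le_max_right _ _).trans hT
  have hT0 : T₀ ≤ T := (le_max_left _ _).trans hT
  have hm1 : 1 ≤ max T₀ 1 := le_max_right _ _
  have hr : max T₀ 1 ≤ L ^ ((1:ℝ) / 3) := by
    have e1 : (max T₀ 1) ^ 3 ≤ L := (le_max_right _ _).trans hL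
    have e2 : ((max T₀ 1) ^ 3) ^ ((1:ℝ) / 3) = max T₀ 1 := by
      rw [← Real.rpow_natCast, ← Real.rpow_mul (by linarith)]
      norm_num
    rw [← e2]
    exact Real.rpow_le_rpow (by positivity) e1 (by norm_num)
  set r := L ^ ((1:ℝ) / 3) with hrdef
  have hr1 : 1 ≤ r := hm1.trans hr
  have hlr : Real.log r = 1 / 3 * Real.log L := by rw [hrdef, Real.log_rpow hL0]
  set T' := min T r with hT'
  have hT'1 : 1 ≤ T' := le_min hT1 hr1
  have hT'0 : T₀ ≤ T' := le_min hT0 ((le_max_left _ _).trans hr)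
  have hT'r : Real.log T' ≤ 1 / 3 * Real.log L := by
    rw [← hlr]
    exact Real.log_le_log (by linarith) (min_le_right _ _)
  have hlog : Real.log T ≤ 3 * Real.log T' := by
    rcases le_total T r with h1 | h1
    · have : T' = T := min_eq_left h1
      rw [this]
      have := Real.log_nonneg hT1
      linarith
    · have : T' = r := min_eq_right h1
      rw [this, hlr]
      have := Real.log_le_log (by linarith) hTL
      linarith
  refine h X hX1 T' hT'0 hT'r B (hBc.trans ?_) hBs M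
  rw [div_le_div_iff₀ (by positivity) (by positivity)]
  have e1 : L * Real.log T ≤ L * (3 * Real.log T') := mul_le_mul_of_nonneg_left hlog hL0.le
  have e2 : 0 < 100 * (D + 6) := by positivity
  calc L * Real.log T * (100 * (D + 6)) ≤ L * (3 * Real.log T') * (100 * (D + 6)) :=
        mul_le_mul_of_nonneg_right e1 e2.le
    _ = _ := by ring

/-- the full range of `T`, plain form -/
theorem partA (D δ : ℝ) (hD : 0 < D) (hδ : 0 < δ) : ∃ T₀ X₀ : ℝ, ∀ X : ℝ, X₀ ≤ X →
    ∀ T : ℝ, T₀ ≤ T → T ≤ Real.log X →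
    ∀ B : Finset ℤ, (B.card : ℝ) ≤ Real.log X * Real.log T / (300 * (D + 6)) →
    (∀ β ∈ B, |(β : ℝ)| ≤ Real.exp ((Real.log X) ^ D)) → ∀ M : ℝ,
    X * Real.exp (-T) ≤ ((GS M X B (X ^ δ)).ncard : ℝ) := by
  obtain ⟨T₀, X₀, h⟩ := main₂ D δ hD hδ
  refine ⟨T₀, max X₀ 1, fun X hX T hT hTL B hBc hBs M => ?_⟩
  have hX1 : 1 ≤ X := (le_max_right _ _).trans hX
  refine le_trans ?_ (h X ((le_max_left _ _).trans hX) T hT hTL B hBc hBs M)
  apply mul_le_mul_of_nonneg_left _ (by linarith)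
  apply Real.exp_le_exp.2
  have := min_le_left T ((Real.log X) ^ ((1:ℝ) / 3))
  linarith

/-- a number between two consecutive primes -/
theorem between (m g : ℕ) (hm : 2 < m) (h : ∀ k : ℕ, m ≤ k → k ≤ m + g → ¬ k.Prime) :
    ∃ j : ℕ, Nat.nth Nat.Prime j < m ∧ m + g < Nat.nth Nat.Prime (j + 1) := by
  set c := Nat.count Nat.Prime m with hc
  have hc0 : 0 < c := by
    exact Nat.pos_of_ne_zero (Nat.count_ne_iff_exists.2 ⟨2, hm, Nat.prime_two⟩)
  refine ⟨c - 1, ?_, ?_⟩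
  · exact Nat.nth_lt_of_lt_count (by omega)
  · have h1 : c - 1 + 1 = c := by omega
    rw [h1]
    have h2 : m ≤ Nat.nth Nat.Prime c := Nat.le_nth_count Nat.infinite_setOfPred_prime m
    by_contra h3
    push Not at h3
    exact h _ h2 h3 (Nat.prime_nth_prime c)

theorem ev_sq : ∃ L₀ : ℝ, ∀ L : ℝ, L₀ ≤ L → L ^ 2 + 1 ≤ Real.exp L := by
  have h := (Real.isLittleO_pow_exp_atTop (n := 2)).def (show (0:ℝ) < 1 / 2 by norm_num)
  obtain ⟨L₀, hL₀⟩ := Filter.eventually_atTop.1 (h.and (eventually_ge_atTop (1:ℝ)))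
  refine ⟨L₀, fun L hL => ?_⟩
  obtain ⟨h1, h2⟩ := hL₀ L hL
  rw [Real.norm_of_nonneg (by positivity), Real.norm_of_nonneg (Real.exp_pos L).le] at h1
  have h3 : 1 ≤ L ^ 2 := one_le_pow₀ h2
  linarith

theorem partB (D : ℝ) (hD : 0 < D) : ∃ T₀ X₀ : ℝ, ∀ X : ℝ, X₀ ≤ X →
    ∀ T : ℝ, T₀ ≤ T → T ≤ Real.log X →
    ∀ (H : Finset ℕ) (G : ℝ), 1 ≤ G →
    (H.card : ℝ) * G ≤ Real.log X * Real.log T / (600 * (D + 8)) →
    (∀ h ∈ H, (h : ℝ) ≤ Real.exp ((Real.log X) ^ D)) →
    X * Real.exp (-T) ≤ ({n : ℕ | X < (n:ℝ) ∧ (n:ℝ) ≤ 2 * X ∧ ∀ h ∈ H, ∃ j : ℕ,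
      Nat.nth Nat.Prime j < n + h ∧
      ((n:ℝ) + h) + G < (Nat.nth Nat.Prime (j + 1) : ℝ)}.ncard : ℝ) := by
  obtain ⟨T₀, X₀, hA⟩ := partA (D + 2) (1 / 2) (by linarith) (by norm_num)
  obtain ⟨L₁, hL₁⟩ := ev_sq
  refine ⟨max T₀ 1, max X₀ (Real.exp (max L₁ (Real.exp 1))), ?_⟩
  intro X hX T hT hTL H G hG hHG hH
  have hX1 : X₀ ≤ X := (le_max_left _ _).trans hX
  have hX2' : Real.exp (max L₁ (Real.exp 1)) ≤ X := (le_max_right _ _).trans hX
  have hX0 : 0 < X := (Real.exp_pos _).trans_le hX2'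
  have hX2 : Real.exp (Real.exp 1) ≤ X :=
    (Real.exp_le_exp.2 (le_max_right _ _)).trans hX2'
  have hLe' : max L₁ (Real.exp 1) ≤ Real.log X := by
    rw [Real.le_log_iff_exp_le hX0]
    exact hX2'
  have hLe : Real.exp 1 ≤ Real.log X := (le_max_right _ _).trans hLe'
  have hsqr := hL₁ (Real.log X) ((le_max_left _ _).trans hLe')
  have h27 := Real.exp_one_gt_d9
  set L := Real.log X with hLdef
  have hL2 : 2 ≤ L := by linarith
  have hL0 : 0 < L := by linarith
  have hT1 : 1 ≤ T := (le_max_right _ _).trans hT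
  have hX7 : 4 ≤ X := by
    have h1 := Real.add_one_le_exp (Real.exp 1)
    have h2 : 4 ≤ Real.exp (Real.exp 1) := by
      have e1 : Real.exp 2 ≤ Real.exp (Real.exp 1) := Real.exp_le_exp.2 (by linarith)
      have e2 : Real.exp 2 = Real.exp 1 * Real.exp 1 := by rw [← Real.exp_add]; norm_num
      nlinarith
    linarith
  have hG0 : 0 ≤ G := by linarith
  set g : ℕ := ⌊G⌋₊ with hg
  have hg1 : (g:ℝ) ≤ G := Nat.floor_le hG0
  have hg2 : G < g + 1 := Nat.lt_floor_add_one G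
  -- the set of shifts
  set B : Finset ℤ := (H ×ˢ Finset.range (g + 1)).image (fun q => ((q.1 : ℤ) + (q.2 : ℤ))) with hB
  have hBcard : (B.card : ℝ) ≤ L * Real.log T / (300 * (D + 2 + 6)) := by
    have h1 : B.card ≤ H.card * (g + 1) := by
      refine Finset.card_image_le.trans ?_
      rw [Finset.card_product, Finset.card_range]
    have h2 : (B.card : ℝ) ≤ H.card * (g + 1) := by exact_mod_cast h1
    have h3 : (H.card : ℝ) * (g + 1) ≤ 2 * (H.card * G) := by
      have : (0:ℝ) ≤ H.card := Nat.cast_nonneg _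
      have h4 : (g:ℝ) + 1 ≤ 2 * G := by linarith
      nlinarith
    have h4 : 2 * (L * Real.log T / (600 * (D + 8))) = L * Real.log T / (300 * (D + 2 + 6)) := by
      have : (D + 2 + 6) = D + 8 := by ring
      rw [this, mul_div_assoc', div_eq_div_iff (by positivity) (by positivity)]
      ring
    rw [← h4]
    linarith
  have hGL : H.Nonempty → G ≤ L ^ 2 := by
    intro hne
    have h1 : (1:ℝ) ≤ H.card := by exact_mod_cast hne.card_pos
    have h2 : G ≤ H.card * G := by nlinarith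
    have h3 : Real.log T ≤ L := by
      have e1 := Real.log_le_sub_one_of_pos (show 0 < T by linarith)
      linarith
    have h4 : L * Real.log T / (600 * (D + 8)) ≤ L ^ 2 := by
      rw [div_le_iff₀ (by positivity)]
      have e1 : L * Real.log T ≤ L * L := mul_le_mul_of_nonneg_left h3 hL0.le
      have e2 : (1:ℝ) ≤ 600 * (D + 8) := by linarith
      nlinarith [sq_nonneg L]
    linarith
  have hBs : ∀ β ∈ B, |(β : ℝ)| ≤ Real.exp (L ^ (D + 2)) := by
    intro β hβ
    rw [hB, Finset.mem_image] at hβ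
    obtain ⟨⟨h, k⟩, hq, rfl⟩ := hβ
    rw [Finset.mem_product, Finset.mem_range] at hq
    simp only at hq ⊢
    have h1 := hH h hq.1
    have h2 : (k:ℝ) ≤ L ^ 2 := by
      have e1 : (k:ℝ) ≤ g := by exact_mod_cast Nat.lt_succ_iff.1 hq.2
      linarith [hGL ⟨h, hq.1⟩]
    push_cast
    rw [abs_of_nonneg (by positivity)]
    have h3 : L ^ (D + 2) = L ^ D * L ^ 2 := by
      rw [Real.rpow_add hL0, Real.rpow_two]
    have h4 : 1 ≤ L ^ D := Real.one_le_rpow (by linarith) hD.le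
    rw [h3]
    have h6 : Real.exp (L ^ D) + L ^ 2 ≤ Real.exp (L ^ D * L ^ 2) := by
      have e3 : L ^ D + L ≤ L ^ D * L ^ 2 := by
        have f1 : L ≤ L ^ 2 - 1 := by nlinarith
        have f2 : 1 * (L ^ 2 - 1) ≤ L ^ D * (L ^ 2 - 1) :=
          mul_le_mul_of_nonneg_right h4 (by linarith)
        linarith
      have e4 : Real.exp (L ^ D) * Real.exp L ≤ Real.exp (L ^ D * L ^ 2) := by
        rw [← Real.exp_add]
        exact Real.exp_le_exp.2 e3
      have e5 : L ^ 2 ≤ Real.exp L - 1 := by linarith [hsqr]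
      have e6 : 1 ≤ Real.exp (L ^ D) := Real.one_le_exp (by linarith)
      have e7 : 0 < Real.exp (L ^ D) := Real.exp_pos _
      nlinarith
    linarith
  have hmain := hA X hX1 T ((le_max_left _ _).trans hT) hTL B hBcard hBs X
  refine hmain.trans ?_
  have hfin : {n : ℕ | X < (n:ℝ) ∧ (n:ℝ) ≤ 2 * X ∧ ∀ h ∈ H, ∃ j : ℕ,
      Nat.nth Nat.Prime j < n + h ∧
      ((n:ℝ) + h) + G < (Nat.nth Nat.Prime (j + 1) : ℝ)}.Finite := by
    apply (Set.finite_Iic ⌊2 * X⌋₊).subset
    intro n hn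
    exact Nat.le_floor hn.2.1
  have hsub : GS X X B (X ^ ((1:ℝ) / 2)) ⊆ (fun n : ℕ => (n:ℤ)) ''
      {n : ℕ | X < (n:ℝ) ∧ (n:ℝ) ≤ 2 * X ∧ ∀ h ∈ H, ∃ j : ℕ,
      Nat.nth Nat.Prime j < n + h ∧
      ((n:ℝ) + h) + G < (Nat.nth Nat.Prime (j + 1) : ℝ)} := by
    intro n hn
    obtain ⟨h1, h2, h3⟩ := hn
    have hn0 : 0 ≤ n := by
      have : (0:ℝ) < n := hX0.trans h1
      exact_mod_cast this.le
    obtain ⟨m, rfl⟩ := Int.eq_ofNat_of_zero_le hn0
    refine ⟨m, ⟨?_, ?_, ?_⟩, rfl⟩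
    · exact_mod_cast h1
    · have : ((m:ℤ):ℝ) ≤ X + X := h2
      push_cast at this
      linarith
    · intro h hh
      have hm1 : X < (m:ℝ) := by exact_mod_cast h1
      have hsq : X ^ ((1:ℝ) / 2) < X := by
        have := Real.rpow_lt_rpow_of_exponent_lt (show 1 < X by linarith)
          (show (1:ℝ) / 2 < 1 by norm_num)
        rwa [Real.rpow_one] at this
      have hm2 : 2 < m + h := by
        have : (4:ℝ) < m := by linarith
        have : 4 < m := by exact_mod_cast this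
        omega
      obtain ⟨j, hj1, hj2⟩ := between (m + h) g hm2 (by
        intro k hk1 hk2 hkp
        have hmem : (((h + (k - (m + h)) : ℕ) : ℤ)) ∈ B := by
          rw [hB, Finset.mem_image]
          refine ⟨(h, k - (m + h)), ?_, ?_⟩
          · rw [Finset.mem_product, Finset.mem_range]
            exact ⟨hh, by simp only; omega⟩
          · push_cast
            rfl
        obtain ⟨p, hp, hpy, hpd⟩ := h3 _ hmem
        have e1 : ((m:ℤ) + ((h + (k - (m + h)) : ℕ) : ℤ)) = (k:ℤ) := by omega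
        have e2 : (p:ℤ) ∣ (k:ℤ) := by
          have : (p:ℤ) ∣ (m:ℤ) + ((h + (k - (m + h)) : ℕ) : ℤ) := hpd
          rwa [e1] at this
        have e3 : p ∣ k := by exact_mod_cast e2
        have e4 := (Nat.prime_dvd_prime_iff_eq hp hkp).1 e3
        have e5 : (m:ℝ) ≤ k := by
          have : m ≤ k := by omega
          exact_mod_cast this
        rw [← e4] at e5
        linarith)
      refine ⟨j, hj1, ?_⟩
      have e1 : m + h + g + 1 ≤ Nat.nth Nat.Prime (j + 1) := hj2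
      have e2 : ((m:ℝ) + h + g + 1) ≤ (Nat.nth Nat.Prime (j + 1) : ℝ) := by exact_mod_cast e1
      linarith
  have hc := Set.ncard_le_ncard hsub (hfin.image _)
  rw [Set.ncard_image_of_injective _ (fun a b h => by exact_mod_cast h)] at hc
  exact_mod_cast hc

end Pool.Agent.L5helper1.AS
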