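import Pool.Agent.L5helper1.AS.Corr

set_option autoImplicit false
set_option linter.unusedSectionVars false
set_option linter.unusedVariables false
set_option maxHeartbeats 4000000

/-! # Sums of a prime and an element of a sparse set -/

namespace Pool.Agent.L5helper1.AS

open Finset Filter

open scoped Classical

theorem ev_C : ∃ L₀ : ℝ, ∀ L : ℝ, L₀ ≤ L → 8 ≤ L ∧ 4 * L ^ 2 ≤ Real.exp (L / 2) := by
  have h := (Real.isLittleO_pow_exp_atTop (n := 2)).def (show (0:ℝ) < 1 / 16 by norm_num)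
  have h2 : Tendsto (fun L : ℝ => L / 2) atTop atTop :=
    Filter.tendsto_id.atTop_div_const (by norm_num)
  have h3 := h2.eventually h
  obtain ⟨L₀, hL₀⟩ := Filter.eventually_atTop.1 (h3.and (eventually_ge_atTop (8:ℝ)))
  refine ⟨L₀, fun L hL => ?_⟩
  obtain ⟨h4, h5⟩ := hL₀ L hL
  refine ⟨h5, ?_⟩
  rw [Real.norm_of_nonneg (by positivity), Real.norm_of_nonneg (Real.exp_pos _).le] at h4
  nlinarith

theorem partC : ∃ T₀ X₀ : ℝ, ∀ X : ℝ, X₀ ≤ X → ∀ T : ℝ, T₀ ≤ T → T ≤ Real.log X →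
    ∀ A : Set ℕ, ((A ∩ {a : ℕ | (a:ℝ) ≤ X}).ncard : ℝ) ≤ Real.log X * Real.log T / 2100 →
    X * Real.exp (-T) / 2 ≤
      ({n : ℕ | (n:ℝ) ≤ X ∧ ¬ ∃ p a : ℕ, p.Prime ∧ a ∈ A ∧ n = p + a}.ncard : ℝ) := by
  obtain ⟨T₀, X₀, hA⟩ := main₂ 1 (1 / 4) (by norm_num) (by norm_num)
  obtain ⟨L₁, hL₁⟩ := ev_C
  refine ⟨max T₀ 1, max X₀ (Real.exp L₁), ?_⟩
  intro X hX T hT hTL A hAc
  have hX1 : X₀ ≤ X := (le_max_left _ _).trans hX
  have hX2 : Real.exp L₁ ≤ X := (le_max_right _ _).trans hX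
  have hX0 : 0 < X := (Real.exp_pos _).trans_le hX2
  have hLe : L₁ ≤ Real.log X := by
    rw [Real.le_log_iff_exp_le hX0]
    exact hX2
  obtain ⟨hL8, hLsq⟩ := hL₁ (Real.log X) hLe
  have hXL : Real.exp (Real.log X) = X := Real.exp_log hX0
  set L := Real.log X with hLdef
  have hL0 : 0 < L := by linarith
  have hT1 : 1 ≤ T := (le_max_right _ _).trans hT
  -- the finite set
  have hfinA : (A ∩ {a : ℕ | (a:ℝ) ≤ X}).Finite := by
    apply (Set.finite_Iic ⌊X⌋₊).subset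
    intro n hn
    exact Nat.le_floor hn.2
  set A' : Finset ℕ := hfinA.toFinset with hA'
  have hA'c : (A'.card : ℝ) ≤ L * Real.log T / 2100 := by
    rw [hA', ← Set.ncard_eq_toFinset_card _ hfinA]
    exact hAc
  set B : Finset ℤ := A'.image (fun a : ℕ => -(a:ℤ)) with hB
  have hBc : (B.card : ℝ) ≤ L * Real.log T / (300 * (1 + 6)) := by
    have h1 : (B.card : ℝ) ≤ A'.card := by exact_mod_cast Finset.card_image_le
    have h2 : (300 * (1 + 6) : ℝ) = 2100 := by norm_num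
    rw [h2]
    exact h1.trans hA'c
  have hBs : ∀ β ∈ B, |(β : ℝ)| ≤ Real.exp (L ^ (1:ℝ)) := by
    intro β hβ
    rw [hB, Finset.mem_image] at hβ
    obtain ⟨a, ha, rfl⟩ := hβ
    rw [hA', Set.Finite.mem_toFinset] at ha
    rw [Real.rpow_one, hXL]
    push_cast
    rw [abs_neg, abs_of_nonneg (Nat.cast_nonneg a)]
    exact ha.2
  have hmain := hA X hX1 T ((le_max_left _ _).trans hT) hTL B hBc hBs 0
  set T' := min T (L ^ ((1:ℝ) / 3)) with hT'
  set K : ℕ := ⌊X ^ ((1:ℝ) / 4)⌋₊ with hK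
  set Z : Finset ℤ := (A' ×ˢ Finset.range (K + 1)).image (fun q => ((q.1 : ℤ) + (q.2 : ℤ))) with hZ
  set S : Set ℕ := {n : ℕ | (n:ℝ) ≤ X ∧ ¬ ∃ p a : ℕ, p.Prime ∧ a ∈ A ∧ n = p + a} with hS
  have hSfin : S.Finite := by
    apply (Set.finite_Iic ⌊X⌋₊).subset
    intro n hn
    exact Nat.le_floor hn.1
  have hX14 : 0 ≤ X ^ ((1:ℝ) / 4) := (Real.rpow_pos_of_pos hX0 _).le
  have hsub : GS 0 X B (X ^ ((1:ℝ) / 4)) ⊆ (fun n : ℕ => (n:ℤ)) '' S ∪ (Z : Set ℤ) := by
    intro n hn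
    obtain ⟨h1, h2, h3⟩ := hn
    have hn0 : 0 ≤ n := by
      exact_mod_cast h1.le
    obtain ⟨m, rfl⟩ := Int.eq_ofNat_of_zero_le hn0
    have hmX : (m:ℝ) ≤ X := by
      have : ((m:ℤ):ℝ) ≤ 0 + X := h2
      push_cast at this
      linarith
    by_cases hm : m ∈ S
    · exact Or.inl ⟨m, hm, rfl⟩
    · right
      rw [hS, Set.mem_setOf_eq] at hm
      push Not at hm
      obtain ⟨q, a, hq, haA, hqa⟩ := hm hmX
      have ha' : a ∈ A' := by
        rw [hA', Set.Finite.mem_toFinset]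
        refine ⟨haA, ?_⟩
        have : (a:ℝ) ≤ m := by
          have : a ≤ m := by omega
          exact_mod_cast this
        exact this.trans hmX
      obtain ⟨p, hp, hpy, hpd⟩ := h3 (-(a:ℤ)) (by
        rw [hB, Finset.mem_image]
        exact ⟨a, ha', rfl⟩)
      have e1 : ((m:ℤ) + -(a:ℤ)) = (q:ℤ) := by omega
      have e2 : (p:ℤ) ∣ (q:ℤ) := by
        have : (p:ℤ) ∣ (m:ℤ) + -(a:ℤ) := hpd
        rwa [e1] at this
      have e3 : p ∣ q := by exact_mod_cast e2
      have e4 := (Nat.prime_dvd_prime_iff_eq hp hq).1 e3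
      have e5 : q ≤ K := by
        rw [hK]
        apply Nat.le_floor
        rw [← e4]
        exact hpy
      rw [hZ, Finset.mem_coe, Finset.mem_image]
      refine ⟨(a, q), ?_, ?_⟩
      · rw [Finset.mem_product, Finset.mem_range]
        exact ⟨ha', by simp only; omega⟩
      · simp only
        omega
  have hZc : (Z.card : ℝ) ≤ A'.card * (X ^ ((1:ℝ) / 4) + 1) := by
    have h1 : Z.card ≤ A'.card * (K + 1) := by
      refine Finset.card_image_le.trans ?_
      rw [Finset.card_product, Finset.card_range]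
    have h2 : (Z.card : ℝ) ≤ A'.card * (K + 1) := by exact_mod_cast h1
    refine h2.trans ?_
    apply mul_le_mul_of_nonneg_left _ (Nat.cast_nonneg _)
    have := Nat.floor_le hX14
    linarith
  have hcount : ((GS 0 X B (X ^ ((1:ℝ) / 4))).ncard : ℝ) ≤ S.ncard + Z.card := by
    have h1 := Set.ncard_le_ncard hsub ((hSfin.image _).union Z.finite_toSet)
    have h2 := Set.ncard_union_le ((fun n : ℕ => (n:ℤ)) '' S) (Z : Set ℤ)
    rw [Set.ncard_image_of_injective _ (fun a b h => by exact_mod_cast h),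
      Set.ncard_coe_finset] at h2
    exact_mod_cast h1.trans h2
  -- numbers
  have hX34 : X ^ ((3:ℝ) / 4) ≤ X * Real.exp (-T') := by
    have e1 : T' ≤ L / 4 := by
      refine (min_le_right _ _).trans ?_
      have e2 : L ^ ((1:ℝ) / 3) = L * (L ^ ((2:ℝ) / 3))⁻¹ := by
        rw [← Real.rpow_neg hL0.le]
        nth_rewrite 2 [← Real.rpow_one L]
        rw [← Real.rpow_add hL0]
        norm_num
      have e3 : 4 ≤ L ^ ((2:ℝ) / 3) := by
        have : (8:ℝ) ^ ((2:ℝ) / 3) = 4 := by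
          rw [show (8:ℝ) = 2 ^ (3:ℝ) by norm_num, ← Real.rpow_mul (by norm_num)]
          norm_num
        rw [← this]
        exact Real.rpow_le_rpow (by norm_num) hL8 (by norm_num)
      rw [e2, div_eq_mul_inv]
      exact mul_le_mul_of_nonneg_left (inv_anti₀ (by norm_num) e3) hL0.le
    rw [Real.rpow_def_of_pos hX0, ← hLdef]
    conv_rhs => rw [← hXL]
    rw [← Real.exp_add]
    apply Real.exp_le_exp.2
    linarith
  have hAL : (A'.card : ℝ) ≤ L ^ 2 := by
    refine hA'c.trans ?_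
    have h1 : Real.log T ≤ L := by
      have := Real.log_le_sub_one_of_pos (show 0 < T by linarith)
      linarith
    have h2 : L * Real.log T ≤ L * L := mul_le_mul_of_nonneg_left h1 hL0.le
    have h3 : 0 ≤ L * L := by positivity
    linarith
  have hXone : 1 ≤ X ^ ((1:ℝ) / 4) := by
    apply Real.one_le_rpow _ (by norm_num)
    rw [← hXL]
    exact Real.one_le_exp hL0.le
  have hbad : (Z.card : ℝ) ≤ X ^ ((3:ℝ) / 4) / 2 := by
    have e1 : X ^ ((3:ℝ) / 4) = X ^ ((1:ℝ) / 4) * Real.exp (L / 2) := by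
      rw [Real.rpow_def_of_pos hX0, Real.rpow_def_of_pos hX0, ← Real.exp_add, ← hLdef]
      congr 1
      ring
    have e2 : (A'.card : ℝ) * (X ^ ((1:ℝ) / 4) + 1) ≤ L ^ 2 * (2 * X ^ ((1:ℝ) / 4)) :=
      mul_le_mul hAL (by linarith) (by linarith) (by positivity)
    rw [e1]
    refine hZc.trans (e2.trans ?_)
    have e3 := mul_le_mul_of_nonneg_left hLsq hX14
    linarith
  have hTT : X * Real.exp (-T) ≤ X * Real.exp (-T') := by
    apply mul_le_mul_of_nonneg_left _ hX0.le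
    apply Real.exp_le_exp.2
    have := min_le_left T (L ^ ((1:ℝ) / 3))
    linarith
  have : X * Real.exp (-T') ≤ S.ncard + X ^ ((3:ℝ) / 4) / 2 := by linarith
  linarith

end Pool.Agent.L5helper1.AS
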