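import Pool.Agent.L5helper1.AS.Cov

set_option autoImplicit false
set_option linter.unusedSectionVars false
set_option linter.unusedVariables false
set_option maxHeartbeats 4000000

/-! # The covering theorem with few exceptional primes -/

namespace Pool.Agent.L5helper1.AS

open Finset Filter Pool.Agent.H256R2.SC Pool.Agent.Y831.RC

open scoped Classical

/-- the size of the second block against the loss -/
theorem ev_fake (K : ℝ) (hK : 0 ≤ K) : ∃ L₀ : ℝ, ∀ L : ℝ, L₀ ≤ L → ∀ e : ℝ, 1 ≤ e →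
    e ≤ 1 / 3 * Real.log L → K * Real.log L + e ^ 2 * Real.exp e ≤ L * Real.exp (-e) / e ^ 2 := by
  have h1 : ∀ᶠ L : ℝ in atTop, (K + 1) * (Real.log L) ^ (4:ℝ) ≤ L ^ ((1:ℝ) / 3) := by
    have h := (isLittleO_log_rpow_rpow_atTop 4 (show (0:ℝ) < 1 / 3 by norm_num)).def
      (show (0:ℝ) < 1 / (K + 1) by positivity)
    filter_upwards [h, eventually_ge_atTop (1:ℝ)] with L hL hL1
    rw [Real.norm_of_nonneg (Real.rpow_nonneg (Real.log_nonneg hL1) _),
      Real.norm_of_nonneg (Real.rpow_nonneg (by linarith) _)] at hL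
    have h2 : (K + 1) * (Real.log L) ^ (4:ℝ) ≤ (K + 1) * (1 / (K + 1) * L ^ ((1:ℝ) / 3)) :=
      mul_le_mul_of_nonneg_left hL (by linarith)
    have h3 : (K + 1) * (1 / (K + 1) * L ^ ((1:ℝ) / 3)) = L ^ ((1:ℝ) / 3) := by field_simp
    linarith
  obtain ⟨L₀, hL₀⟩ := Filter.eventually_atTop.1 (h1.and (eventually_ge_atTop (Real.exp 3)))
  refine ⟨L₀, fun L hL e he1 he => ?_⟩
  obtain ⟨h2, h3⟩ := hL₀ L hL
  have hL0 : 0 < L := (Real.exp_pos 3).trans_le h3
  have hl3 : 3 ≤ Real.log L := by rw [Real.le_log_iff_exp_le hL0]; exact h3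
  set l : ℝ := Real.log L with hl
  have h2' : (K + 1) * l ^ 4 ≤ L ^ ((1:ℝ) / 3) := by
    have e0 : l ^ (4:ℝ) = l ^ (4:ℕ) := by
      have := Real.rpow_natCast l 4
      push_cast at this
      exact this
    rw [← e0]
    exact h2
  have he0 : 0 < e := by linarith
  have hel : e ≤ l := by linarith
  have hx : Real.exp e ≤ L ^ ((1:ℝ) / 3) := by
    rw [Real.rpow_def_of_pos hL0]
    apply Real.exp_le_exp.2
    rw [← hl]
    linarith
  have hx0 : 0 < L ^ ((1:ℝ) / 3) := Real.rpow_pos_of_pos hL0 _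
  have hx1 : 1 ≤ L ^ ((1:ℝ) / 3) := (Real.one_le_exp he0.le).trans hx
  set r : ℝ := L ^ ((1:ℝ) / 3) with hr
  have hr3 : r ^ 3 = L := by
    rw [hr, ← Real.rpow_natCast, ← Real.rpow_mul hL0.le]
    norm_num
  have hE := Real.exp_pos e
  rw [le_div_iff₀ (by positivity), Real.exp_neg, ← div_eq_mul_inv, le_div_iff₀ hE]
  have e2 : e ^ 2 ≤ l ^ 2 := pow_le_pow_left₀ he0.le hel 2
  have hl0 : 0 ≤ l := by linarith
  have hl1 : 1 ≤ l := by linarith
  have e3 : (K * l + e ^ 2 * Real.exp e) * e ^ 2 * Real.exp e ≤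
      (K * l + l ^ 2 * r) * l ^ 2 * r := by
    apply mul_le_mul _ hx hE.le (by positivity)
    apply mul_le_mul _ e2 (by positivity) (by positivity)
    apply add_le_add le_rfl
    exact mul_le_mul e2 hx hE.le (by positivity)
  refine e3.trans ?_
  have e4 : K * l ≤ K * l ^ 2 * r := by
    have : K * l * 1 ≤ K * l * (l * r) := by
      apply mul_le_mul_of_nonneg_left _ (by positivity)
      nlinarith
    nlinarith
  have e5 : (K * l + l ^ 2 * r) * l ^ 2 * r ≤ ((K + 1) * l ^ 4) * r ^ 2 := by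
    have : K * l + l ^ 2 * r ≤ (K + 1) * l ^ 2 * r := by nlinarith
    calc (K * l + l ^ 2 * r) * l ^ 2 * r ≤ ((K + 1) * l ^ 2 * r) * l ^ 2 * r := by
          apply mul_le_mul_of_nonneg_right _ hx0.le
          exact mul_le_mul_of_nonneg_right this (by positivity)
      _ = _ := by ring
  refine e5.trans ?_
  calc ((K + 1) * l ^ 4) * r ^ 2 ≤ r * r ^ 2 := mul_le_mul_of_nonneg_right h2' (by positivity)
    _ = r ^ 3 := by ring
    _ = L := hr3

/-- multiples in an interval -/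
theorem cnt_mult (A B : ℤ) (hAB : A ≤ B) (p : ℕ) (hp : 0 < p) (r : ℤ) :
    (((Ioc A B).filter (fun x : ℤ => (p : ℤ) ∣ x - r)).card : ℝ) ≤ ((B : ℝ) - A) / p + 1 := by
  have h := (abs_le.1 (LG.count_Ioc A B hAB p hp r)).2
  linarith

theorem covE (Aw ε : ℝ) (hAw : 2 ≤ Aw) (hε : 0 < ε) (hε8 : ε ≤ 1 / 8) :
    ∃ e₀ X₀ : ℝ, ∀ X : ℝ, X₀ ≤ X →
    ∀ e : ℝ, e₀ ≤ e → e ≤ 1 / 3 * Real.log (Real.log X) →
    ∀ (κ : Type) [Fintype κ] [DecidableEq κ],
    (Fintype.card κ : ℝ) ≤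
      (1 / 2 - 3 * ε) * (e * Real.log X * (WW ((Real.log X) ^ Aw) / 2)) →
    ∀ E : Finset ℕ, (E.card : ℝ) ≤ (Real.log X) ^ (Aw - 1) →
    ∀ res : ℕ → κ → ℤ,
    (∀ p : ℕ, p.Prime → (Real.log X) ^ Aw < p →
      (p : ℝ) ≤ Real.exp (ε ^ 2 * Real.log X / (100 * e)) → p ∉ E → ∀ k l, k ≠ l →
      ¬ ((p : ℤ) ∣ res p k - res p l)) →
    ∀ A B : ℤ, Real.exp ((1 - ε) * Real.log X) ≤ (B : ℝ) - A →
    1 / 8 * ((B : ℝ) - A) ≤ (((Ioc A B).filter (fun x : ℤ => ∀ k : κ, ∃ p : ℕ, p.Prime ∧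
      (Real.log X) ^ Aw < p ∧ (p : ℝ) ≤ Real.exp (ε ^ 2 * Real.log X / (100 * e)) ∧
      (p : ℤ) ∣ x - res p k)).card : ℝ) * Real.exp (e ^ 2 * Real.exp e) := by
  obtain ⟨c, C, hc, hcC, hWb⟩ := WW_bounds
  obtain ⟨CR, hCR0, hSR⟩ := sum_ratio
  obtain ⟨C₁, hC₁, hBH⟩ := BHyp_PSE
  have hC : 0 < C := hc.trans_le hcC
  have h0a : 0 < 100 / ε ^ 2 := by positivity
  have h0b : 0 < 300 / ε := by positivity
  have h0c : 0 < 64 / (c * ε) := by positivity
  have h0d : 0 < 200 / ε := by positivity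
  have hE₁ := Real.exp_pos C₁
  obtain ⟨e₀, he₀⟩ := ev_e (1000 + 100 / ε ^ 2 + 300 / ε + 64 / (c * ε) + 72 * C)
    (by linarith only [h0a, h0b, h0c, hC])
  obtain ⟨L₀, hL₀⟩ := ev_L5 ε (8 + 200 / ε + C + Real.exp C₁ + 2 * CR + Aw) hε
    (by linarith only [hε8]) (by linarith only [h0d, hC, hE₁, hCR0, hAw])
  obtain ⟨L₁, hL₁⟩ := ev_fake (Aw + 3) (by linarith)
  refine ⟨max e₀ 1, Real.exp (max L₀ L₁), ?_⟩
  intro X hX e he heu κ _ _ hκ E hEc res hres A B hAB
  have hX0 : 0 < X := lt_of_lt_of_le (Real.exp_pos _) hX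
  have hLL' : max L₀ L₁ ≤ Real.log X := by
    rw [Real.le_log_iff_exp_le hX0]
    exact hX
  have hLL : L₀ ≤ Real.log X := (le_max_left _ _).trans hLL'
  obtain ⟨he1, he3, helog⟩ := he₀ e ((le_max_left _ _).trans he)
  have he1' : 1 ≤ e := (le_max_right _ _).trans he
  obtain ⟨a1, a2, a3, a4, a5⟩ := hL₀ (Real.log X) hLL
  have hf := hL₁ (Real.log X) ((le_max_right _ _).trans hLL') e he1' heu
  set L := Real.log X with hL
  set l := Real.log L with hl
  have hl0 : 0 ≤ l := by linarith only [a2]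
  have heu' : e ≤ (1 - ε) * l := by nlinarith
  have b1 := a5 e he1' heu'
  have hL8 : 8 ≤ L := by linarith only [a1, h0d, hC, hE₁, hCR0, hAw]
  have hL0 : 0 < L := by linarith only [hL8]
  have hL1 : 1 ≤ L := by linarith only [hL8]
  have he0 : 0 < e := by linarith only [he1']
  set Y : ℝ := L * Real.exp (-e) / e ^ 2 with hY
  set y : ℝ := Real.exp Y with hy
  set Z : ℝ := ε ^ 2 * L / (100 * e) with hZ
  set w : ℝ := L ^ Aw with hw
  have hlL : l ≤ L := by
    have := Real.log_le_sub_one_of_pos hL0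
    linarith only [this]
  have hel : e ≤ l := by linarith only [heu, hl0]
  have hWW0 := WW_pos w
  have hWW1 := WW_le_one w
  -- the number of colours
  set u : ℝ := (Fintype.card κ : ℝ) with hu
  have hu0 : 0 ≤ u := Nat.cast_nonneg _
  have hu2 : u ≤ L ^ 2 / 2 := p_u2 (by linarith only [hL8]) hlL he0.le hel
    (show 0 < WW w / 2 by linarith only [hWW0]) (by linarith only [hWW0, hWW1]) hε u hκ
  -- powers of L below y
  have hyb : L ^ (Aw + 3) * Real.exp (e ^ 2 * Real.exp e) ≤ y := by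
    have e1 : L ^ (Aw + 3) = Real.exp ((Aw + 3) * l) := by
      rw [Real.rpow_def_of_pos hL0, mul_comm]
    rw [e1, ← Real.exp_add, hy]
    exact Real.exp_le_exp.2 hf
  have hΦ1 : 1 ≤ Real.exp (e ^ 2 * Real.exp e) := Real.one_le_exp (by positivity)
  have hy0 : 0 < y := Real.exp_pos _
  have hpw : ∀ a : ℝ, a ≤ Aw + 3 → L ^ a ≤ y := by
    intro a ha
    have e1 : L ^ a ≤ L ^ (Aw + 3) := Real.rpow_le_rpow_of_exponent_le hL1 ha
    have e2 : 0 < L ^ (Aw + 3) := Real.rpow_pos_of_pos hL0 _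
    have e3 : L ^ (Aw + 3) * 1 ≤ L ^ (Aw + 3) * Real.exp (e ^ 2 * Real.exp e) :=
      mul_le_mul_of_nonneg_left hΦ1 e2.le
    linarith only [e1, e3, hyb]
  have hwy : w ≤ y := hpw Aw (by linarith only [])
  have hL2y : L ^ 2 ≤ y := by
    have := hpw 2 (by linarith only [hAw])
    rwa [Real.rpow_two] at this
  have huy : u < y := by
    have : 0 < L ^ 2 := by positivity
    linarith only [hu2, hL2y, this]
  -- the exceptional primes
  have hEsum : ∑ p ∈ E.filter (fun p : ℕ => w < (p:ℝ)), 1 / (p:ℝ) ≤ 1 / 2 := by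
    have hw0 : 0 < w := Real.rpow_pos_of_pos hL0 _
    calc ∑ p ∈ E.filter (fun p : ℕ => w < (p:ℝ)), 1 / (p:ℝ)
        ≤ ∑ p ∈ E.filter (fun p : ℕ => w < (p:ℝ)), 1 / w := by
          apply Finset.sum_le_sum
          intro p hp
          exact one_div_le_one_div_of_le hw0 (Finset.mem_filter.1 hp).2.le
      _ = ((E.filter (fun p : ℕ => w < (p:ℝ))).card : ℝ) * (1 / w) := by
          rw [Finset.sum_const, nsmul_eq_mul]
      _ ≤ L ^ (Aw - 1) * (1 / w) := by
          apply mul_le_mul_of_nonneg_right _ (by positivity)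
          refine le_trans ?_ hEc
          exact_mod_cast Finset.card_le_card (Finset.filter_subset _ _)
      _ = 1 / L := by
          rw [Real.rpow_sub hL0, Real.rpow_one, ← hw]
          field_simp
      _ ≤ 1 / 2 := one_div_le_one_div_of_le (by norm_num) (by linarith only [hL8])
  -- the fake residues
  set res' : ℕ → κ → ℤ := fun p k =>
    if y < (p:ℝ) ∧ p ∈ E then ((Fintype.equivFin κ k : ℕ) : ℤ) else res p k with hres'
  have hyz : Y ≤ Z := by
    have hK2 : 100 / ε ^ 2 ≤ e := by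
      linarith only [he1, h0b, h0c, hC]
    have he3' : e ^ 3 ≤ Real.exp e := by
      refine q_cube (K₀ := 1000 + 100 / ε ^ 2 + 300 / ε + 64 / (c * ε) + 72 * C) ?_ he1' he3
      linarith only [h0a, h0b, h0c, hC]
    exact (p_YZ hε (by linarith only [hε8]) hL0 hK2 he3' hY hZ).1
  have hr1 : ∀ p : ℕ, p.Prime → w < p → (p : ℝ) ≤ y → p ∉ E → ∀ k l, k ≠ l →
      ¬ ((p : ℤ) ∣ res' p k - res' p l) := by
    intro p hp h1 h2 h3 k l' hkl
    simp only [hres']
    rw [if_neg (fun h => h3 h.2), if_neg (fun h => h3 h.2)]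
    exact hres p hp h1 (h2.trans (Real.exp_le_exp.2 hyz)) h3 k l' hkl
  have hr2 : ∀ p : ℕ, p.Prime → y < p → (p : ℝ) ≤ Real.exp Z → ∀ k l, k ≠ l →
      ¬ ((p : ℤ) ∣ res' p k - res' p l) := by
    intro p hp h1 h2 k l' hkl hdvd
    simp only [hres'] at hdvd
    by_cases h3 : p ∈ E
    · rw [if_pos ⟨h1, h3⟩, if_pos ⟨h1, h3⟩] at hdvd
      have hk := (Fintype.equivFin κ k).2
      have hl' := (Fintype.equivFin κ l').2
      have hpu : Fintype.card κ < p := by
        have : (Fintype.card κ : ℝ) < p := huy.trans h1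
        exact_mod_cast this
      have h7 : ((Fintype.equivFin κ k : ℕ) : ℤ) - ((Fintype.equivFin κ l' : ℕ) : ℤ) = 0 := by
        apply Int.eq_zero_of_abs_lt_dvd hdvd
        rw [abs_lt]
        constructor <;> omega
      apply hkl
      apply (Fintype.equivFin κ).injective
      apply Fin.ext
      omega
    · rw [if_neg (fun h => h3 h.2), if_neg (fun h => h3 h.2)] at hdvd
      exact hres p hp (lt_of_le_of_lt hwy h1) h2 h3 k l' hkl hdvd
  have hmain := covE_at Aw ε c C CR C₁ (1000 + 100 / ε ^ 2 + 300 / ε + 64 / (c * ε) + 72 * C)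
    (8 + 200 / ε + C + Real.exp C₁ + 2 * CR + Aw) hAw
    (by linarith only [h0d, hC, hE₁, hCR0]) hε hε8 hc hC hC₁ hCR0 hWb hSR hBH
    (by linarith only [h0a, h0b, h0c, hC]) (by linarith only [h0a, h0b, h0c, hC])
    (by linarith only [h0a, h0b, h0c, hC]) (by linarith only [h0a, h0b, h0c, hC])
    (by linarith only [h0a, h0b, h0c, hC]) (by linarith only [h0d, hC, hE₁, hCR0, hAw])
    (by linarith only [h0d, hC, hE₁, hCR0, hAw]) (by linarith only [h0d, hC, hE₁, hCR0, hAw])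
    (by linarith only [h0d, hC, hE₁, hCR0, hAw]) (by linarith only [h0d, hC, hE₁, hCR0, hAw])
    L e he1 he3 helog a1 a2 a3 a4 heu' b1 κ hκ E hEsum res' hr1 hr2 A B hAB
  set Φ : ℝ := Real.exp (e ^ 2 * Real.exp e) with hΦ
  set N : ℝ := (B : ℝ) - A with hN
  set S' : Finset ℤ := (Ioc A B).filter (fun x : ℤ => ∀ k : κ, ∃ p : ℕ, p.Prime ∧
      w < p ∧ (p : ℝ) ≤ Real.exp Z ∧ (p : ℤ) ∣ x - res' p k) with hS'
  set S : Finset ℤ := (Ioc A B).filter (fun x : ℤ => ∀ k : κ, ∃ p : ℕ, p.Prime ∧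
      w < p ∧ (p : ℝ) ≤ Real.exp Z ∧ (p : ℤ) ∣ x - res p k) with hS
  set F : Finset ℕ := E.filter (fun p : ℕ => y < (p:ℝ)) with hF
  set Bd : Finset ℤ := F.biUnion (fun p => (univ : Finset κ).biUnion (fun k =>
    (Ioc A B).filter (fun x : ℤ => (p : ℤ) ∣ x - res' p k))) with hBd
  have hsub : S' ⊆ S ∪ Bd := by
    intro x hx
    rw [hS', Finset.mem_filter] at hx
    rw [Finset.mem_union]
    by_cases hxB : x ∈ Bd
    · exact Or.inr hxB
    · left
      rw [hS, Finset.mem_filter]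
      refine ⟨hx.1, fun k => ?_⟩
      obtain ⟨p, hp1, hp2, hp3, hp4⟩ := hx.2 k
      refine ⟨p, hp1, hp2, hp3, ?_⟩
      by_cases h : y < (p:ℝ) ∧ p ∈ E
      · exfalso
        apply hxB
        rw [hBd, Finset.mem_biUnion]
        refine ⟨p, ?_, ?_⟩
        · rw [hF, Finset.mem_filter]
          exact ⟨h.2, h.1⟩
        · rw [Finset.mem_biUnion]
          refine ⟨k, Finset.mem_univ _, ?_⟩
          rw [Finset.mem_filter]
          exact ⟨hx.1, hp4⟩
      · simp only [hres'] at hp4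
        rwa [if_neg h] at hp4
  have hNpos : 0 < N := lt_of_lt_of_le (Real.exp_pos _) hAB
  have hABle : A ≤ B := by
    have : (A:ℝ) ≤ B := by linarith only [hNpos, hN]
    exact_mod_cast this
  have hNy : y ≤ N := by
    refine le_trans ?_ hAB
    rw [hy]
    apply Real.exp_le_exp.2
    have e1 : Z ≤ 1 / 2 * L := by
      rw [hZ, div_le_iff₀ (by positivity)]
      have e2 : ε ^ 2 ≤ 1 := by nlinarith
      have e3 : ε ^ 2 * L ≤ 1 * L := mul_le_mul_of_nonneg_right e2 hL0.le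
      nlinarith
    have e2 : 1 / 2 * L ≤ (1 - ε) * L := mul_le_mul_of_nonneg_right (by linarith only [hε8]) hL0.le
    linarith only [e1, e2, hyz]
  have hBdc : (Bd.card : ℝ) ≤ L ^ (Aw - 1) * ((L ^ 2 / 2) * (2 * N / y)) := by
    have h1 : Bd.card ≤ ∑ p ∈ F, ∑ k : κ,
        ((Ioc A B).filter (fun x : ℤ => (p : ℤ) ∣ x - res' p k)).card := by
      refine Finset.card_biUnion_le.trans ?_
      apply Finset.sum_le_sum
      intro p _
      exact Finset.card_biUnion_le
    have h2 : (Bd.card : ℝ) ≤ ∑ p ∈ F, ∑ k : κ,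
        (((Ioc A B).filter (fun x : ℤ => (p : ℤ) ∣ x - res' p k)).card : ℝ) := by
      exact_mod_cast h1
    refine h2.trans ?_
    have h3 : ∀ p ∈ F, ∑ k : κ,
        (((Ioc A B).filter (fun x : ℤ => (p : ℤ) ∣ x - res' p k)).card : ℝ) ≤
        (L ^ 2 / 2) * (2 * N / y) := by
      intro p hp
      have hpy : y < (p:ℝ) := (Finset.mem_filter.1 hp).2
      have hp0 : 0 < p := by
        have : (0:ℝ) < p := hy0.trans hpy
        exact_mod_cast this
      calc ∑ k : κ, (((Ioc A B).filter (fun x : ℤ => (p : ℤ) ∣ x - res' p k)).card : ℝ)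
          ≤ ∑ _k : κ, (2 * N / y) := by
            apply Finset.sum_le_sum
            intro k _
            refine (cnt_mult A B hABle p hp0 (res' p k)).trans ?_
            have e1 : N / p ≤ N / y := div_le_div_of_nonneg_left hNpos.le hy0 hpy.le
            have e2 : 1 ≤ N / y := by rw [one_le_div hy0]; exact hNy
            have e3 : 2 * N / y = N / y + N / y := by ring
            rw [e3]
            exact add_le_add e1 e2
        _ = u * (2 * N / y) := by
            rw [Finset.sum_const, Finset.card_univ, nsmul_eq_mul]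
        _ ≤ _ := mul_le_mul_of_nonneg_right hu2 (by positivity)
    calc ∑ p ∈ F, ∑ k : κ,
        (((Ioc A B).filter (fun x : ℤ => (p : ℤ) ∣ x - res' p k)).card : ℝ)
        ≤ ∑ _p ∈ F, (L ^ 2 / 2) * (2 * N / y) := Finset.sum_le_sum h3
      _ = (F.card : ℝ) * ((L ^ 2 / 2) * (2 * N / y)) := by rw [Finset.sum_const, nsmul_eq_mul]
      _ ≤ _ := by
          apply mul_le_mul_of_nonneg_right _ (by positivity)
          refine le_trans ?_ hEc
          exact_mod_cast Finset.card_le_card (Finset.filter_subset _ _)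
  have hBdΦ : (Bd.card : ℝ) * Φ ≤ 1 / 8 * N := by
    have e1 : L ^ (Aw - 1) * ((L ^ 2 / 2) * (2 * N / y)) * Φ =
        (L ^ (Aw + 1) * Φ / y) * N := by
      have : L ^ (Aw + 1) = L ^ (Aw - 1) * L ^ 2 := by
        rw [← Real.rpow_two, ← Real.rpow_add hL0]
        congr 1
        ring
      rw [this]
      field_simp
    have e2 : L ^ (Aw + 3) * Φ = L ^ 2 * (L ^ (Aw + 1) * Φ) := by
      have : L ^ (Aw + 3) = L ^ 2 * L ^ (Aw + 1) := by
        rw [← Real.rpow_two, ← Real.rpow_add hL0]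
        congr 1
        ring
      rw [this]
      ring
    have e3 : L ^ (Aw + 1) * Φ / y ≤ 1 / 8 := by
      rw [div_le_iff₀ hy0]
      have h1 : 0 ≤ L ^ (Aw + 1) * Φ := by positivity
      have h2 : 8 ≤ L ^ 2 := by nlinarith
      have h3 : 8 * (L ^ (Aw + 1) * Φ) ≤ L ^ 2 * (L ^ (Aw + 1) * Φ) :=
        mul_le_mul_of_nonneg_right h2 h1
      rw [← e2] at h3
      linarith only [h3, hyb]
    calc (Bd.card : ℝ) * Φ ≤ L ^ (Aw - 1) * ((L ^ 2 / 2) * (2 * N / y)) * Φ :=
          mul_le_mul_of_nonneg_right hBdc (Real.exp_pos _).le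
      _ = (L ^ (Aw + 1) * Φ / y) * N := e1
      _ ≤ 1 / 8 * N := mul_le_mul_of_nonneg_right e3 hNpos.le
  have hcard : (S'.card : ℝ) ≤ S.card + Bd.card := by
    have := (Finset.card_le_card hsub).trans (Finset.card_union_le _ _)
    exact_mod_cast this
  have hfin : (S'.card : ℝ) * Φ ≤ (S.card : ℝ) * Φ + (Bd.card : ℝ) * Φ := by
    have := mul_le_mul_of_nonneg_right hcard (Real.exp_pos (e ^ 2 * Real.exp e)).le
    rw [add_mul] at this
    exact this
  have : 3 / 8 * N ≤ (S'.card : ℝ) * Φ := hmain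
  linarith only [this, hfin, hBdΦ, hNpos]

end Pool.Agent.L5helper1.AS
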