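import Pool.Agent.L5helper1.AS.Avg
import Pool.Agent.Y831.RC5.Abund5

set_option autoImplicit false
set_option linter.unusedSectionVars false
set_option linter.unusedVariables false
set_option maxHeartbeats 4000000

/-! # Arbitrary sets of shifts: many integers all of whose shifts have a small prime factor -/

namespace Pool.Agent.L5helper1.AS

open Finset Filter Pool.Agent.H256R2.SC Pool.Agent.Y831.RC

open scoped Classical

theorem ev_M (D t CR : ℝ) (hD : 0 < D) (ht : 0 < t) (ht8 : t ≤ 1 / 8) (hCR : 0 ≤ CR) :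
    ∃ L₀ : ℝ, ∀ L : ℝ, L₀ ≤ L →
    3 ≤ L ∧ 1 ≤ Real.log L ∧ 2 ≤ t / 8 * L ∧
    Real.log L / Real.log (t / 8 * L) * Real.exp (CR / Real.log (t / 8 * L)) ≤ 4 ∧
    Real.exp ((1 - t) * L) + 1 ≤ Real.exp ((1 - t / 4) * L) ∧
    2 * Real.exp (t / 4 * L) ≤ Real.exp L := by
  have t1 := Real.tendsto_log_atTop
  have h0 : ∀ᶠ L : ℝ in atTop, 3 ≤ L := eventually_ge_atTop _
  have h1 : ∀ᶠ L : ℝ in atTop, 1 ≤ Real.log L := t1.eventually_ge_atTop _
  have h2 : ∀ᶠ L : ℝ in atTop, 2 ≤ t / 8 * L := by
    filter_upwards [eventually_ge_atTop (16 / t)] with L hL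
    rw [div_le_iff₀ ht] at hL
    linarith
  have h4 : ∀ᶠ L : ℝ in atTop,
      Real.log L / Real.log (t / 8 * L) * Real.exp (CR / Real.log (t / 8 * L)) ≤ 4 := by
    have a0 : Tendsto (fun L : ℝ => t / 8 * L) atTop atTop :=
      Filter.Tendsto.const_mul_atTop (by positivity) Filter.tendsto_id
    have a1 : Tendsto (fun L : ℝ => Real.log (t / 8 * L)) atTop atTop := t1.comp a0
    have a2 : Tendsto (fun L : ℝ => Real.exp (CR / Real.log (t / 8 * L))) atTop (nhds 1) := by
      have := (Real.continuous_exp.tendsto 0).comp (a1.const_div_atTop CR)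
      rw [Real.exp_zero] at this
      exact this
    have a3 : Tendsto (fun L : ℝ => 1 + (- Real.log (t / 8)) / Real.log (t / 8 * L)) atTop
        (nhds (1 + 0)) := tendsto_const_nhds.add (a1.const_div_atTop _)
    have a4 := a3.mul a2
    have a5 : (1 + 0 : ℝ) * 1 < 4 := by norm_num
    have a6 := a4.eventually (gt_mem_nhds a5)
    filter_upwards [a6, eventually_gt_atTop (0:ℝ), a1.eventually_gt_atTop 0] with L hL hL0 hl0
    have e1 : Real.log L = Real.log (t / 8 * L) + -Real.log (t / 8) := by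
      rw [Real.log_mul (by positivity) hL0.ne']
      ring
    have e2 : Real.log L / Real.log (t / 8 * L) =
        1 + (- Real.log (t / 8)) / Real.log (t / 8 * L) := by
      have hl0' : 0 < Real.log (t / 8 * L) := hl0
      rw [e1, add_div, div_self hl0'.ne']
    rw [e2]
    exact hL.le
  have h6 : ∀ᶠ L : ℝ in atTop,
      Real.exp ((1 - t) * L) + 1 ≤ Real.exp ((1 - t / 4) * L) := by
    have a0 : Tendsto (fun L : ℝ => 3 * t / 4 * L) atTop atTop :=
      Filter.Tendsto.const_mul_atTop (by positivity) Filter.tendsto_id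
    have a1 := Real.tendsto_exp_atTop.comp a0
    filter_upwards [a1.eventually_ge_atTop 4, eventually_ge_atTop (0:ℝ)] with L hL hL0
    have e1 : Real.exp ((1 - t / 4) * L) = Real.exp ((1 - t) * L) * Real.exp (3 * t / 4 * L) := by
      rw [← Real.exp_add]; congr 1; ring
    have e2 : 1 ≤ Real.exp ((1 - t) * L) := Real.one_le_exp (by
      have : 0 ≤ 1 - t := by linarith
      positivity)
    have e3 : 4 ≤ Real.exp (3 * t / 4 * L) := hL
    rw [e1]
    nlinarith
  have h7 : ∀ᶠ L : ℝ in atTop, 2 * Real.exp (t / 4 * L) ≤ Real.exp L := by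
    filter_upwards [eventually_ge_atTop (8:ℝ)] with L hL
    have e1 : Real.exp L = Real.exp (t / 4 * L) * Real.exp ((1 - t / 4) * L) := by
      rw [← Real.exp_add]; congr 1; ring
    have e2 : 2 ≤ Real.exp ((1 - t / 4) * L) := by
      have e3 := Real.add_one_le_exp ((1 - t / 4) * L)
      nlinarith
    have e3 := Real.exp_pos (t / 4 * L)
    rw [e1]
    nlinarith
  exact Filter.eventually_atTop.1 (h0.and (h1.and (h2.and (h4.and (h6.and h7)))))

theorem main₁ (D δ : ℝ) (hD : 0 < D) (hδ : 0 < δ) : ∃ T₀ X₀ : ℝ, ∀ X : ℝ, X₀ ≤ X →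
    ∀ T : ℝ, T₀ ≤ T → Real.log T ≤ 1 / 3 * Real.log (Real.log X) →
    ∀ B : Finset ℤ, (B.card : ℝ) ≤ Real.log X * Real.log T / (100 * (D + 6)) →
    (∀ β ∈ B, |(β : ℝ)| ≤ Real.exp ((Real.log X) ^ D)) → ∀ M : ℝ,
    X * Real.exp (-T) ≤ ((GS M X B (X ^ δ)).ncard : ℝ) := by
  set Aw : ℝ := D + 6 with hAw
  have hAw2 : 2 ≤ Aw := by rw [hAw]; linarith
  have hAw0 : 0 < Aw := by linarith
  obtain ⟨t, ht, ht8, htδ⟩ : ∃ t : ℝ, 0 < t ∧ t ≤ 1 / 8 ∧ t ≤ δ :=
    ⟨min (1 / 8) δ, lt_min (by norm_num) hδ, min_le_left _ _, min_le_right _ _⟩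
  have ht' : 0 < t / 8 := by positivity
  -- use a smaller parameter in the covering theorem
  obtain ⟨e₀, X₁, hcov⟩ := covE Aw (t / 8) hAw2 ht' (by linarith)
  obtain ⟨CR, hCR0, hWR⟩ := WW_ratio
  obtain ⟨T₀, hT₀⟩ := ev_T5 t e₀ (Real.log (32 / t)) ht (by linarith)
  obtain ⟨L₀, hL₀⟩ := ev_M D (t / 8) CR hD ht' (by linarith) hCR0
  refine ⟨T₀, max X₁ (Real.exp L₀), fun X hX T hT hTL B hBc hBs M => ?_⟩
  have hX1 : X₁ ≤ X := (le_max_left _ _).trans hX
  have hXe : Real.exp L₀ ≤ X := (le_max_right _ _).trans hX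
  have hX0 : 0 < X := lt_of_lt_of_le (Real.exp_pos _) hXe
  have hLL : L₀ ≤ Real.log X := by
    rw [Real.le_log_iff_exp_le hX0]
    exact hXe
  obtain ⟨g0, g1, g2, g3⟩ := hT₀ T hT
  obtain ⟨k0, k1, k2, k4, k6, k7⟩ := hL₀ (Real.log X) hLL
  have hlog1 : 1 ≤ Real.log T := by
    have : 0 ≤ t * Real.log T := mul_nonneg ht.le (Real.log_nonneg g0)
    linarith only [this, g2]
  have hc5 := hcov X hX1 ((1 - t) * Real.log T) g1 (by
    have : 0 ≤ t * Real.log T := mul_nonneg ht.le (Real.log_nonneg g0)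
    linarith only [this, hTL])
  have hXL : Real.exp (Real.log X) = X := Real.exp_log hX0
  set L := Real.log X with hL
  set l := Real.log L with hl
  set e := (1 - t) * Real.log T with he
  set s := t / 8 with hs
  have hL0 : 0 < L := by linarith
  have hL1 : 1 ≤ L := by linarith
  have hlTl : Real.log T ≤ l := by linarith
  set F := L * Real.log T / (100 * Aw) with hF
  have hFpos : 0 < F := by positivity
  set w := L ^ Aw with hw
  have hw0 : 0 < w := Real.rpow_pos_of_pos hL0 _
  have hlw : Real.log w = Aw * l := by rw [hw, Real.log_rpow hL0]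
  have hLw : L ≤ w := by
    calc L = L ^ (1:ℝ) := (Real.rpow_one L).symm
      _ ≤ L ^ Aw := Real.rpow_le_rpow_of_exponent_le hL1 (by linarith)
  set x := s / 8 * L with hx
  have hx0 : 0 ≤ x := by positivity
  have hxL : x ≤ L := by
    have : s / 8 * L ≤ 1 * L := mul_le_mul_of_nonneg_right (by linarith only [ht8, hs]) hL0.le
    rw [hx]
    linarith only [this]
  have hxw : x ≤ w := hxL.trans hLw
  set P : ℕ := primorial ⌊x⌋₊ with hP
  have hPpos : 0 < P := primorial_pos _
  have hPr : (0:ℝ) < P := by exact_mod_cast hPpos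
  have hPx : (P:ℝ) ≤ Real.exp (s / 4 * L) := by
    refine (primorial_le_exp x hx0).trans ?_
    apply Real.exp_le_exp.2
    rw [hx]
    linarith
  have hPX : 2 * (P:ℝ) ≤ X := by
    rw [← hXL]
    linarith only [hPx, k7]
  -- the sizes
  set S := F * WW x with hS
  set f : ℕ → ℕ := fun b => (SB B P b).card with hf
  have hS0 : 0 < S := mul_pos hFpos (WW_pos x)
  have hsum : ((∑ b ∈ range P, f b : ℕ) : ℝ) ≤ P * S := by
    simp only [hf]
    rw [class_sumB P hPpos B]
    push_cast
    rw [hP, tot_prim x, ← hP, hS]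
    have e2 : 0 ≤ (P:ℝ) * WW x := by
      have := WW_pos x
      positivity
    calc (B.card : ℝ) * ((P:ℝ) * WW x) ≤ F * ((P:ℝ) * WW x) := mul_le_mul_of_nonneg_right hBc e2
      _ = _ := by ring
  have hgood := good_card P f S t ht hS0 hsum
  set G := (range P).filter (fun b => (f b : ℝ) ≤ (1 + t) * S) with hG
  have hWx : WW x ≤ 4 * Aw * WW w := by
    have e1 := hWR x w k2 hxw
    rw [hlw] at e1
    have e2 : WW w * (Aw * l / Real.log x) * Real.exp (CR / Real.log x) =
        Aw * (l / Real.log x * Real.exp (CR / Real.log x)) * WW w := by ring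
    rw [e2] at e1
    refine e1.trans (mul_le_mul_of_nonneg_right ?_ (WW_pos w).le)
    have := mul_le_mul_of_nonneg_left k4 hAw0.le
    linarith only [this]
  have hbound : (1 + t) * S ≤ (1 / 2 - 3 * s) * (e * L * (WW w / 2)) := by
    have e1 : S ≤ F * (4 * Aw * WW w) := mul_le_mul_of_nonneg_left hWx hFpos.le
    have e2 : (1 + t) * S ≤ (1 + t) * (F * (4 * Aw * WW w)) :=
      mul_le_mul_of_nonneg_left e1 (by linarith)
    have e3 : 0 ≤ L * Real.log T * WW w := by
      have := WW_pos w
      positivity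
    have e5 : (1 + t) * (F * (4 * Aw * WW w)) = (1 + t) / 25 * (L * Real.log T * WW w) := by
      rw [hF]
      field_simp
      ring
    have e6 : (1 / 2 - 3 * s) * (e * L * (WW w / 2)) =
        (1 / 2 - 3 * s) * (1 - t) / 2 * (L * Real.log T * WW w) := by
      rw [he]
      ring
    rw [e6]
    rw [e5] at e2
    refine e2.trans (mul_le_mul_of_nonneg_right ?_ e3)
    have e7 : s ≤ 1 / 64 := by rw [hs]; linarith
    nlinarith
  -- the exceptional primes
  set E := ES B w with hE
  have hEc : (E.card : ℝ) ≤ L ^ (Aw - 1) := by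
    have e1 : ((ES B w).card : ℝ) ≤ (B.card : ℝ) ^ 2 * (L ^ D + 1) := by
      apply ES_card B w (L ^ D + 1)
      · have := Real.exp_one_lt_d9
        linarith only [this, hLw, k0]
      · have := Real.rpow_pos_of_pos hL0 D
        linarith only [this]
      · intro β hβ
        refine (hBs β hβ).trans ?_
        rw [Real.exp_add]
        have h1 := Real.exp_one_gt_d9
        have h2 := Real.exp_pos (L ^ D)
        nlinarith
    have e2 : (B.card : ℝ) ≤ L ^ 2 := by
      refine hBc.trans ?_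
      have h1 : l ≤ L := by
        have := Real.log_le_sub_one_of_pos hL0
        linarith only [this]
      have h2 : L * Real.log T ≤ L * L := mul_le_mul_of_nonneg_left (hlTl.trans h1) hL0.le
      rw [hF, div_le_iff₀ (by positivity)]
      have h3 : (1:ℝ) ≤ 100 * Aw := by linarith
      have h4 : 0 ≤ L ^ 2 := by positivity
      nlinarith
    have e3 : L ^ D + 1 ≤ L ^ (D + 1) := by
      rw [Real.rpow_add hL0, Real.rpow_one]
      have h1 : 1 ≤ L ^ D := Real.one_le_rpow hL1 hD.le
      nlinarith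
    calc (E.card : ℝ) ≤ (B.card : ℝ) ^ 2 * (L ^ D + 1) := e1
      _ ≤ (L ^ 2) ^ 2 * L ^ (D + 1) := by
          apply mul_le_mul _ e3 (by positivity) (by positivity)
          exact pow_le_pow_left₀ (Nat.cast_nonneg _) e2 2
      _ = L ^ (Aw - 1) := by
          have h1 : (L ^ 2) ^ 2 = L ^ (4:ℝ) := by
            rw [← pow_mul]
            have := Real.rpow_natCast L 4
            push_cast at this
            rw [this]
          rw [h1, ← Real.rpow_add hL0]
          congr 1
          rw [hAw]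
          ring
  set R : Finset ℤ := (GS_finite M X B (X ^ δ)).toFinset with hR
  have hXδ : X ^ δ = Real.exp (δ * L) := by
    rw [Real.rpow_def_of_pos hX0, mul_comm]
  have hy : Real.exp (s ^ 2 * L / (100 * e)) ≤ X ^ δ := by
    rw [hXδ]
    apply Real.exp_le_exp.2
    have he0 : 0 < 100 * e := by linarith only [g2]
    rw [div_le_iff₀ he0]
    have e1 : s ^ 2 ≤ δ * (100 * e) :=
      q_tδ ht' (by linarith only [ht8, hs]) (by linarith only [htδ, hs, ht]) g2
    have e2 := mul_le_mul_of_nonneg_right e1 hL0.le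
    linarith only [e2]
  have hxy : x ≤ X ^ δ := by
    rw [hXδ]
    have e1 := Real.add_one_le_exp (δ * L)
    have e2 : x ≤ δ * L := by
      rw [hx]
      apply mul_le_mul_of_nonneg_right _ hL0.le
      linarith only [htδ, ht, hs]
    linarith only [e1, e2]
  have hlen : Real.exp ((1 - s) * L) ≤ X / (P : ℝ) - 1 := by
    have e2 : Real.exp ((1 - s / 4) * L) ≤ X / P := by
      rw [le_div_iff₀ hPr]
      have e3 : Real.exp ((1 - s / 4) * L) * Real.exp (s / 4 * L) = X := by
        rw [← Real.exp_add, ← hXL]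
        congr 1
        ring
      rw [← e3]
      exact mul_le_mul_of_nonneg_left hPx (Real.exp_pos _).le
    linarith only [e2, k6]
  have hclass : ∀ b ∈ G, 1 / 8 * (X / (P : ℝ) - 1) ≤
      ((R.filter (fun n : ℤ => (P : ℤ) ∣ n - b)).card : ℝ) *
        Real.exp (e ^ 2 * Real.exp e) := by
    intro b hb
    have hb1 := (Finset.mem_filter.1 hb).2
    exact class_cntB B E w (Real.exp (s ^ 2 * L / (100 * e))) (X ^ δ) x
      (Real.exp (e ^ 2 * Real.exp e)) (Real.exp ((1 - s) * L)) X M (1 / 8) b hx0 hxw (by norm_num)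
      hy hxy (Real.exp_pos _).le
      (fun p hp hp1 _ hp3 => ES_spec B w p hp hp1 hp3)
      (hc5 (SB B (primorial ⌊x⌋₊) b) (by
        have e1 : (Fintype.card (SB B (primorial ⌊x⌋₊) b) : ℝ) = (f b : ℝ) := by
          simp only [hf, Fintype.card_coe]
          rfl
        rw [e1]
        exact hb1.trans hbound) E hEc) hlen
  have hfinal := classes_cnt R P hPpos G (Finset.filter_subset _ _) _ _ hclass (Real.exp_pos _).le
  have hcardR : (R.card : ℝ) = ((GS M X B (X ^ δ)).ncard : ℝ) := by
    rw [hR, Set.ncard_eq_toFinset_card _ (GS_finite M X B (X ^ δ))]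
  rw [hcardR] at hfinal
  have hv0 : 0 ≤ 1 / 8 * (X / (P : ℝ) - 1) := by
    have := Real.exp_pos ((1 - s) * L)
    linarith only [this, hlen]
  have hGt : t / 2 * P ≤ G.card := by
    refine le_trans ?_ hgood
    apply mul_le_mul_of_nonneg_right _ hPr.le
    have h1t : 0 < 1 + t := by linarith only [ht]
    rw [div_le_div_iff₀ (by norm_num) h1t]
    have : t * t ≤ t * 1 := mul_le_mul_of_nonneg_left (by linarith only [ht8]) ht.le
    linarith only [this]
  have h1 : t / 32 * X ≤ G.card * (1 / 8 * (X / (P : ℝ) - 1)) := by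
    have e1 := mul_le_mul_of_nonneg_right hGt hv0
    refine le_trans ?_ e1
    have e2 : t / 2 * P * (1 / 8 * (X / (P : ℝ) - 1)) = t / 16 * (X - P) := by
      field_simp
      ring
    rw [e2]
    have e3 : X / 2 ≤ X - P := by linarith only [hPX]
    have e4 := mul_le_mul_of_nonneg_left e3 (show 0 ≤ t / 16 by positivity)
    linarith only [e4]
  have h2 : t / 32 * X ≤ ((GS M X B (X ^ δ)).ncard : ℝ) * Real.exp (e ^ 2 * Real.exp e) :=
    h1.trans hfinal
  have h3 : X * Real.exp (-T) * Real.exp (e ^ 2 * Real.exp e) ≤ t / 32 * X := by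
    have e1 : Real.exp (-T) * Real.exp (e ^ 2 * Real.exp e) ≤ t / 32 := by
      rw [← Real.exp_add]
      have e2 : -T + e ^ 2 * Real.exp e ≤ -Real.log (32 / t) := by linarith
      refine (Real.exp_le_exp.2 e2).trans (le_of_eq ?_)
      rw [Real.exp_neg, Real.exp_log (by positivity)]
      field_simp
    calc X * Real.exp (-T) * Real.exp (e ^ 2 * Real.exp e) =
          (Real.exp (-T) * Real.exp (e ^ 2 * Real.exp e)) * X := by ring
      _ ≤ t / 32 * X := mul_le_mul_of_nonneg_right e1 hX0.le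
  exact le_of_mul_le_mul_right (h3.trans h2) (Real.exp_pos _)

end Pool.Agent.L5helper1.AS
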